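import Pool.Agent.CB53.Defs

/-!
# Runs of the search
-/

set_option autoImplicit false

namespace Pool.Agent.CB53

theorem s0j17t10101099999010999b90010990000110101 :
    run [] 0 16 10101099999010999 90010990000110101 = true := by
  decide +kernel

theorem s0j18t101010999991099990b990001090000110101 :
    run [] 0 17 101010999991099990 990001090000110101 = true := by
  decide +kernel

theorem s0j17t10101099999109999b90001090000110101 :
    run [(18, 101010999991099990, 990001090000110101)] 0 16 10101099999109999 90001090000110101 = true := by
  decide +kernel

theorem s0j16t1010109999910999b9001090000110101 :
    run [] 0 15 1010109999910999 9001090000110101 = true := by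
  decide +kernel

theorem s0j14t10101099999109b91090000110101 :
    run [] 0 13 10101099999109 91090000110101 = true := by
  decide +kernel

theorem s0j16t1010109999010999b1099000110101 :
    run [] 0 15 1010109999010999 1099000110101 = true := by
  decide +kernel

theorem s0j11t10101099990b99000110101 :
    run [(16, 1010109999010999, 1099000110101)] 0 10 10101099990 99000110101 = true := by
  decide +kernel

theorem s0j8t10101099b110101 :
    run [(11, 10101099990, 99000110101), (17, 10101099999010999, 90010990000110101), (14, 10101099999109, 91090000110101), (16, 1010109999910999, 9001090000110101), (17, 10101099999109999, 90001090000110101)] 0 7 10101099 110101 = true := by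
  decide +kernel

theorem s0j6t101010b110101 : run [(8, 10101099, 110101)] 0 5 101010 110101 = true := by
  decide +kernel

theorem s0j5t10101b10101 : run [(6, 101010, 110101)] 0 4 10101 10101 = true := by
  decide +kernel

theorem s0j15t101100999990109b910990000101101 :
    run [] 0 14 101100999990109 910990000101101 = true := by
  decide +kernel

theorem s0j16t1011009999010900b9991099000101101 :
    run [] 0 15 1011009999010900 9991099000101101 = true := by
  decide +kernel

theorem s0j10t1011009999b9000101101 :
    run [(16, 1011009999010900, 9991099000101101)] 0 9 1011009999 9000101101 = true := by
  decide +kernel

end Pool.Agent.CB53
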