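import Pool.Agent.CB53.Defs

/-!
# Runs of the search
-/

set_option autoImplicit false

namespace Pool.Agent.CB53

theorem s0j9t101100999b900101101 : run [] 0 8 101100999 900101101 = true := by
  decide +kernel

theorem s0j8t10110099b90101101 : run [] 0 7 10110099 90101101 = true := by
  decide +kernel

theorem s0j5t10110b1101 :
    run [(8, 10110099, 90101101), (9, 101100999, 900101101), (10, 1011009999, 9000101101), (15, 101100999990109, 910990000101101)] 0 4 10110 1101 = true := by
  decide +kernel

theorem s0j4t1010b101 : run [(5, 10101, 10101)] 0 3 1010 101 = true := by
  decide +kernel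

theorem s0j4t1011b1101 : run [(5, 10110, 1101)] 0 3 1011 1101 = true := by
  decide +kernel

theorem s0j16t1101099999910099b10090000011011 :
    run [] 0 15 1101099999910099 10090000011011 = true := by
  decide +kernel

theorem s0j15t110109999910099b1009000011011 :
    run [] 0 14 110109999910099 1009000011011 = true := by
  decide +kernel

theorem s0j9t110109999b11011 :
    run [(16, 1101099999910099, 10090000011011), (15, 110109999910099, 1009000011011)] 0 8 110109999 11011 = true := by
  decide +kernel

theorem s0j8t11010999b90011011 : run [] 0 7 11010999 90011011 = true := by
  decide +kernel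

theorem s0j5t11010b1011 : run [] 0 4 11010 1011 = true := by
  decide +kernel

theorem s0j4t1101b1011 :
    run [(5, 11010, 1011), (8, 11010999, 90011011), (9, 110109999, 11011)] 0 3 1101 1011 = true := by
  decide +kernel

theorem s0j4t1112b8811 : run [] 0 3 1112 8811 = true := by
  decide +kernel

theorem s0j3t111b111 : run [] 0 2 111 111 = true := by
  decide +kernel

end Pool.Agent.CB53
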