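import Pool.Agent.CB53.Defs

/-!
# Runs of the search
-/

set_option autoImplicit false

namespace Pool.Agent.CB53

theorem s0j3t111b811 : run [(4, 1112, 8811)] 0 2 111 811 = true := by
  decide +kernel

theorem s0j3t110b11 : run [(4, 1101, 1011)] 0 2 110 11 = true := by
  decide +kernel

theorem s0j3t110b111 : run [] 0 2 110 111 = true := by
  decide +kernel

theorem s0j5t12121b91191 : run [] 0 4 12121 91191 = true := by
  decide +kernel

theorem s0j2t11b11 :
    run [(3, 111, 111), (3, 111, 811), (3, 110, 11), (3, 110, 111)] 0 1 11 11 = true := by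
  decide +kernel

theorem s0j2t12b61 : run [] 0 1 12 61 = true := by
  decide +kernel

theorem s0j2t10b1 : run [(4, 1010, 101), (4, 1011, 1101)] 0 1 10 1 = true := by
  decide +kernel

theorem s0j2t11b81 : run [] 0 1 11 81 = true := by
  decide +kernel

theorem s0j2t11b51 : run [] 0 1 11 51 = true := by
  decide +kernel

theorem s0j2t12b91 : run [(5, 12121, 91191)] 0 1 12 91 = true := by
  decide +kernel

theorem s0j1t1b1 :
    run [(2, 11, 11), (2, 12, 61), (2, 10, 1), (2, 11, 81), (2, 11, 51), (2, 12, 91)] 0 0 1 1 = true := by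
  decide +kernel

theorem s0j2t19b13 : run [] 0 1 19 13 = true := by
  decide +kernel

theorem s0j1t1b3 : run [(2, 19, 13)] 0 0 1 3 = true := by
  decide +kernel

end Pool.Agent.CB53
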