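import Pool.Agent.CB53.Defs

/-!
# Runs of the search
-/

set_option autoImplicit false

namespace Pool.Agent.CB53

theorem s0j4t1666b404 : run [] 0 3 1666 404 = true := by
  decide +kernel

theorem s0j2t16b4 : run [(4, 1666, 404)] 0 1 16 4 = true := by
  decide +kernel

theorem s0j2t16b44 : run [] 0 1 16 44 = true := by
  decide +kernel

theorem s0j1t1b4 : run [(2, 16, 4), (2, 16, 44)] 0 0 1 4 = true := by
  decide +kernel

theorem s0j1t1b5 : run [] 0 0 1 5 = true := by
  decide +kernel

theorem s0j2t19b66 : run [] 0 1 19 66 = true := by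
  decide +kernel

theorem s0j2t19b16 : run [] 0 1 19 16 = true := by
  decide +kernel

theorem s0j2t18b76 : run [] 0 1 18 76 = true := by
  decide +kernel

theorem s0j1t1b6 : run [(2, 19, 66), (2, 19, 16), (2, 18, 76)] 0 0 1 6 = true := by
  decide +kernel

theorem s0j4t1444b7887 : run [] 0 3 1444 7887 = true := by
  decide +kernel

theorem s0j2t14b87 : run [(4, 1444, 7887)] 0 1 14 87 = true := by
  decide +kernel

theorem s0j1t1b7 : run [(2, 14, 87)] 0 0 1 7 = true := by
  decide +kernel

theorem s0j2t14b98 : run [] 0 1 14 98 = true := by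
  decide +kernel

end Pool.Agent.CB53
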