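import Pool.Agent.CB53.Defs

/-!
# Runs of the search
-/

set_option autoImplicit false

namespace Pool.Agent.CB53

theorem s0j2t13b88 : run [] 0 1 13 88 = true := by
  decide +kernel

theorem s0j2t13b68 : run [] 0 1 13 68 = true := by
  decide +kernel

theorem s0j1t1b8 : run [(2, 14, 98), (2, 13, 88), (2, 13, 68)] 0 0 1 8 = true := by
  decide +kernel

theorem s0j3t200b252 : run [] 0 2 200 252 = true := by
  decide +kernel

theorem s0j2t20b22 : run [] 0 1 20 22 = true := by
  decide +kernel

theorem s0j2t20b52 : run [(3, 200, 252)] 0 1 20 52 = true := by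
  decide +kernel

theorem s0j1t2b2 : run [(2, 20, 22), (2, 20, 52)] 0 0 2 2 = true := by
  decide +kernel

theorem s0j2t21b19 : run [] 0 1 21 19 = true := by
  decide +kernel

theorem s0j1t2b9 : run [(2, 21, 19)] 0 0 2 9 = true := by
  decide +kernel

theorem s1j2t22b71 : run [] 1 1 22 71 = true := by
  decide +kernel

theorem s1j2t26b61 : run [] 1 1 26 61 = true := by
  decide +kernel

theorem s1j2t23b11 : run [] 1 1 23 11 = true := by
  decide +kernel

theorem s1j1t2b1 : run [(2, 22, 71), (2, 26, 61), (2, 23, 11)] 1 0 2 1 = true := by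
  decide +kernel

end Pool.Agent.CB53
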