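import Pool.Agent.CB53.Defs

/-!
# Runs of the search
-/

set_option autoImplicit false

namespace Pool.Agent.CB53

theorem s1j1t2b8 : run [] 1 0 2 8 = true := by
  decide +kernel

theorem s1j2t34b34 : run [] 1 1 34 34 = true := by
  decide +kernel

theorem s1j2t36b44 : run [] 1 1 36 44 = true := by
  decide +kernel

theorem s1j2t35b14 : run [] 1 1 35 14 = true := by
  decide +kernel

theorem s1j2t34b84 : run [] 1 1 34 84 = true := by
  decide +kernel

theorem s1j1t3b4 : run [(2, 34, 34), (2, 36, 44), (2, 35, 14), (2, 34, 84)] 1 0 3 4 = true := by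
  decide +kernel

theorem s1j2t38b55 : run [] 1 1 38 55 = true := by
  decide +kernel

theorem s1j2t37b85 : run [] 1 1 37 85 = true := by
  decide +kernel

theorem s1j2t37b65 : run [] 1 1 37 65 = true := by
  decide +kernel

theorem s1j1t3b5 : run [(2, 38, 55), (2, 37, 85), (2, 37, 65)] 1 0 3 5 = true := by
  decide +kernel

theorem s1j1t3b6 : run [] 1 0 3 6 = true := by
  decide +kernel

theorem s1j4t3222b7777 : run [] 1 3 3222 7777 = true := by
  decide +kernel

theorem s1j3t322b777 : run [(4, 3222, 7777)] 1 2 322 777 = true := by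
  decide +kernel

end Pool.Agent.CB53
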