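import Pool.Agent.CB53.Defs

/-!
# Runs of the search
-/

set_option autoImplicit false

namespace Pool.Agent.CB53

theorem s1j3t323b677 : run [] 1 2 323 677 = true := by
  decide +kernel

theorem s1j4t3303b6967 : run [] 1 3 3303 6967 = true := by
  decide +kernel

theorem s1j5t33222b7767 : run [] 1 4 33222 7767 = true := by
  decide +kernel

theorem s1j4t3322b7767 : run [(5, 33222, 7767)] 1 3 3322 7767 = true := by
  decide +kernel

theorem s1j5t33320b97667 : run [] 1 4 33320 97667 = true := by
  decide +kernel

theorem s1j4t3332b7667 : run [(5, 33320, 97667)] 1 3 3332 7667 = true := by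
  decide +kernel

theorem s1j4t3330b9667 : run [] 1 3 3330 9667 = true := by
  decide +kernel

theorem s1j3t333b667 : run [(4, 3332, 7667), (4, 3330, 9667)] 1 2 333 667 = true := by
  decide +kernel

theorem s1j3t330b967 : run [(4, 3303, 6967)] 1 2 330 967 = true := by
  decide +kernel

theorem s1j2t33b27 : run [] 1 1 33 27 = true := by
  decide +kernel

theorem s1j2t32b77 : run [(3, 322, 777), (3, 323, 677)] 1 1 32 77 = true := by
  decide +kernel

theorem s1j2t33b97 : run [] 1 1 33 97 = true := by
  decide +kernel

theorem s1j2t33b67 : run [(3, 333, 667), (3, 330, 967), (4, 3322, 7767)] 1 1 33 67 = true := by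
  decide +kernel

end Pool.Agent.CB53
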