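import Pool.Agent.CB53.Defs

/-!
# Runs of the search
-/

set_option autoImplicit false

namespace Pool.Agent.CB53

theorem s1j1t3b7 : run [(2, 33, 27), (2, 32, 77), (2, 33, 97), (2, 33, 67)] 1 0 3 7 = true := by
  decide +kernel

theorem s1j2t30b88 : run [] 1 1 30 88 = true := by
  decide +kernel

theorem s1j1t3b8 : run [(2, 30, 88)] 1 0 3 8 = true := by
  decide +kernel

theorem s1j2t44b92 : run [] 1 1 44 92 = true := by
  decide +kernel

theorem s1j2t44b42 : run [] 1 1 44 42 = true := by
  decide +kernel

theorem s1j2t44b82 : run [] 1 1 44 82 = true := by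
  decide +kernel

theorem s1j2t43b22 : run [] 1 1 43 22 = true := by
  decide +kernel

theorem s1j1t4b2 : run [(2, 44, 92), (2, 44, 42), (2, 44, 82), (2, 43, 22)] 1 0 4 2 = true := by
  decide +kernel

theorem s1j2t41b73 : run [] 1 1 41 73 = true := by
  decide +kernel

theorem s1j2t41b33 : run [] 1 1 41 33 = true := by
  decide +kernel

theorem s1j1t4b3 : run [(2, 41, 73), (2, 41, 33)] 1 0 4 3 = true := by
  decide +kernel

theorem s1j2t41b66 : run [] 1 1 41 66 = true := by
  decide +kernel

theorem s1j1t4b6 : run [(2, 41, 66)] 1 0 4 6 = true := by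
  decide +kernel

end Pool.Agent.CB53
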