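import Pool.Agent.CB53.Defs

/-!
# Runs of the search
-/

set_option autoImplicit false

namespace Pool.Agent.CB53

theorem s1j3t448b969 : run [] 1 2 448 969 = true := by
  decide +kernel

theorem s1j2t46b99 : run [] 1 1 46 99 = true := by
  decide +kernel

theorem s1j2t44b69 : run [(3, 448, 969)] 1 1 44 69 = true := by
  decide +kernel

theorem s1j1t4b9 : run [(2, 46, 99), (2, 44, 69)] 1 0 4 9 = true := by
  decide +kernel

theorem s2j2t46b1 : run [] 2 1 46 1 = true := by
  decide +kernel

theorem s2j1t4b1 : run [(2, 46, 1)] 2 0 4 1 = true := by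
  decide +kernel

theorem s2j2t51b11 : run [] 2 1 51 11 = true := by
  decide +kernel

theorem s2j2t55b21 : run [] 2 1 55 21 = true := by
  decide +kernel

theorem s2j2t55b91 : run [] 2 1 55 91 = true := by
  decide +kernel

theorem s2j2t53b51 : run [] 2 1 53 51 = true := by
  decide +kernel

theorem s2j2t57b31 : run [] 2 1 57 31 = true := by
  decide +kernel

theorem s2j2t56b61 : run [] 2 1 56 61 = true := by
  decide +kernel

theorem s2j1t5b1 :
    run [(2, 51, 11), (2, 55, 21), (2, 55, 91), (2, 53, 51), (2, 57, 31), (2, 56, 61)] 2 0 5 1 = true := by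
  decide +kernel

end Pool.Agent.CB53
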