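import Pool.Agent.CB53.Defs

/-!
# Runs of the search
-/

set_option autoImplicit false

namespace Pool.Agent.CB53

theorem s2j1t5b8 : run [] 2 0 5 8 = true := by
  decide +kernel

theorem s2j2t69b77 : run [] 2 1 69 77 = true := by
  decide +kernel

theorem s2j1t6b7 : run [(2, 69, 77)] 2 0 6 7 = true := by
  decide +kernel

theorem s2j3t664b448 : run [] 2 2 664 448 = true := by
  decide +kernel

theorem s2j2t66b98 : run [] 2 1 66 98 = true := by
  decide +kernel

theorem s2j2t64b88 : run [] 2 1 64 88 = true := by
  decide +kernel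

theorem s2j2t66b48 : run [(3, 664, 448)] 2 1 66 48 = true := by
  decide +kernel

theorem s2j2t61b18 : run [] 2 1 61 18 = true := by
  decide +kernel

theorem s2j1t6b8 : run [(2, 66, 98), (2, 64, 88), (2, 66, 48), (2, 61, 18)] 2 0 6 8 = true := by
  decide +kernel

theorem s2j2t78b44 : run [] 2 1 78 44 = true := by
  decide +kernel

theorem s2j2t77b54 : run [] 2 1 77 54 = true := by
  decide +kernel

theorem s2j2t77b4 : run [] 2 1 77 4 = true := by
  decide +kernel

theorem s2j2t78b94 : run [] 2 1 78 94 = true := by
  decide +kernel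

end Pool.Agent.CB53
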