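import Pool.Agent.CB53.Defs

/-!
# Runs of the search
-/

set_option autoImplicit false

namespace Pool.Agent.CB53

theorem s2j1t7b4 : run [(2, 78, 44), (2, 77, 54), (2, 77, 4), (2, 78, 94)] 2 0 7 4 = true := by
  decide +kernel

theorem s2j1t7b5 : run [] 2 0 7 5 = true := by
  decide +kernel

theorem s2j1t7b7 : run [] 2 0 7 7 = true := by
  decide +kernel

theorem s2j1t8b3 : run [] 2 0 8 3 = true := by
  decide +kernel

theorem s2j3t833b955 : run [] 2 2 833 955 = true := by
  decide +kernel

theorem s2j3t833b155 : run [] 2 2 833 155 = true := by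
  decide +kernel

theorem s2j2t83b55 : run [(3, 833, 955), (3, 833, 155)] 2 1 83 55 = true := by
  decide +kernel

theorem s2j2t83b75 : run [] 2 1 83 75 = true := by
  decide +kernel

theorem s2j2t83b35 : run [] 2 1 83 35 = true := by
  decide +kernel

theorem s2j1t8b5 : run [(2, 83, 55), (2, 83, 75), (2, 83, 35)] 2 0 8 5 = true := by
  decide +kernel

theorem s2j3t884b666 : run [] 2 2 884 666 = true := by
  decide +kernel

theorem s2j3t885b66 : run [] 2 2 885 66 = true := by
  decide +kernel

theorem s2j2t88b66 : run [(3, 884, 666), (3, 885, 66)] 2 1 88 66 = true := by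
  decide +kernel

end Pool.Agent.CB53
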