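import Pool.Agent.CB53.Defs

/-!
# Runs of the search
-/

set_option autoImplicit false

namespace Pool.Agent.CB53

theorem s2j2t85b46 : run [] 2 1 85 46 = true := by
  decide +kernel

theorem s2j2t88b16 : run [] 2 1 88 16 = true := by
  decide +kernel

theorem s2j2t86b86 : run [] 2 1 86 86 = true := by
  decide +kernel

theorem s2j1t8b6 : run [(2, 88, 66), (2, 85, 46), (2, 88, 16), (2, 86, 86)] 2 0 8 6 = true := by
  decide +kernel

theorem s2j2t94b22 : run [] 2 1 94 22 = true := by
  decide +kernel

theorem s2j2t95b42 : run [] 2 1 95 42 = true := by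
  decide +kernel

theorem s2j2t95b92 : run [] 2 1 95 92 = true := by
  decide +kernel

theorem s2j1t9b2 : run [(2, 94, 22), (2, 95, 42), (2, 95, 92)] 2 0 9 2 = true := by
  decide +kernel

theorem s2j2t90b33 : run [] 2 1 90 33 = true := by
  decide +kernel

theorem s2j1t9b3 : run [(2, 90, 33)] 2 0 9 3 = true := by
  decide +kernel

theorem s2j2t97b79 : run [] 2 1 97 79 = true := by
  decide +kernel

theorem s2j2t99b29 : run [] 2 1 99 29 = true := by
  decide +kernel

theorem s2j2t99b59 : run [] 2 1 99 59 = true := by
  decide +kernel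

end Pool.Agent.CB53
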