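import Pool.Agent.CB53.Defs

/-!
# Runs of the search
-/

set_option autoImplicit false

namespace Pool.Agent.CB53

theorem s2j1t9b9 : run [(2, 97, 79), (2, 99, 29), (2, 99, 59)] 2 0 9 9 = true := by
  decide +kernel

end Pool.Agent.CB53
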