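import Pool.Agent.CB53.Run
import Pool.Agent.CB53.R01
import Pool.Agent.CB53.R02
import Pool.Agent.CB53.R03
import Pool.Agent.CB53.R04
import Pool.Agent.CB53.R05
import Pool.Agent.CB53.R06
import Pool.Agent.CB53.R07
import Pool.Agent.CB53.R08
import Pool.Agent.CB53.R09
import Pool.Agent.CB53.R10
import Pool.Agent.CB53.R11
import Pool.Agent.CB53.R12
import Pool.Agent.CB53.R13

/-!
# All runs together
-/

set_option autoImplicit false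

namespace Pool.Agent.CB53

theorem c_s0j17t10101099999010999b90010990000110101 {n : ℕ} (H : Hyp n 0) : TabOk n (17, 10101099999010999, 90010990000110101) :=
  run_sound H s0j17t10101099999010999b90010990000110101 (nil_ok n)

theorem c_s0j18t101010999991099990b990001090000110101 {n : ℕ} (H : Hyp n 0) : TabOk n (18, 101010999991099990, 990001090000110101) :=
  run_sound H s0j18t101010999991099990b990001090000110101 (nil_ok n)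

theorem c_s0j17t10101099999109999b90001090000110101 {n : ℕ} (H : Hyp n 0) : TabOk n (17, 10101099999109999, 90001090000110101) :=
  run_sound H s0j17t10101099999109999b90001090000110101 (cons_ok (c_s0j18t101010999991099990b990001090000110101 H) (nil_ok n))

theorem c_s0j16t1010109999910999b9001090000110101 {n : ℕ} (H : Hyp n 0) : TabOk n (16, 1010109999910999, 9001090000110101) :=
  run_sound H s0j16t1010109999910999b9001090000110101 (nil_ok n)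

theorem c_s0j14t10101099999109b91090000110101 {n : ℕ} (H : Hyp n 0) : TabOk n (14, 10101099999109, 91090000110101) :=
  run_sound H s0j14t10101099999109b91090000110101 (nil_ok n)

theorem c_s0j16t1010109999010999b1099000110101 {n : ℕ} (H : Hyp n 0) : TabOk n (16, 1010109999010999, 1099000110101) :=
  run_sound H s0j16t1010109999010999b1099000110101 (nil_ok n)

theorem c_s0j11t10101099990b99000110101 {n : ℕ} (H : Hyp n 0) : TabOk n (11, 10101099990, 99000110101) :=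
  run_sound H s0j11t10101099990b99000110101 (cons_ok (c_s0j16t1010109999010999b1099000110101 H) (nil_ok n))

theorem c_s0j8t10101099b110101 {n : ℕ} (H : Hyp n 0) : TabOk n (8, 10101099, 110101) :=
  run_sound H s0j8t10101099b110101 (cons_ok (c_s0j11t10101099990b99000110101 H) (cons_ok (c_s0j17t10101099999010999b90010990000110101 H) (cons_ok (c_s0j14t10101099999109b91090000110101 H) (cons_ok (c_s0j16t1010109999910999b9001090000110101 H) (cons_ok (c_s0j17t10101099999109999b90001090000110101 H) (nil_ok n))))))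

theorem c_s0j6t101010b110101 {n : ℕ} (H : Hyp n 0) : TabOk n (6, 101010, 110101) :=
  run_sound H s0j6t101010b110101 (cons_ok (c_s0j8t10101099b110101 H) (nil_ok n))

theorem c_s0j5t10101b10101 {n : ℕ} (H : Hyp n 0) : TabOk n (5, 10101, 10101) :=
  run_sound H s0j5t10101b10101 (cons_ok (c_s0j6t101010b110101 H) (nil_ok n))

theorem c_s0j15t101100999990109b910990000101101 {n : ℕ} (H : Hyp n 0) : TabOk n (15, 101100999990109, 910990000101101) :=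
  run_sound H s0j15t101100999990109b910990000101101 (nil_ok n)

theorem c_s0j16t1011009999010900b9991099000101101 {n : ℕ} (H : Hyp n 0) : TabOk n (16, 1011009999010900, 9991099000101101) :=
  run_sound H s0j16t1011009999010900b9991099000101101 (nil_ok n)

theorem c_s0j10t1011009999b9000101101 {n : ℕ} (H : Hyp n 0) : TabOk n (10, 1011009999, 9000101101) :=
  run_sound H s0j10t1011009999b9000101101 (cons_ok (c_s0j16t1011009999010900b9991099000101101 H) (nil_ok n))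

theorem c_s0j9t101100999b900101101 {n : ℕ} (H : Hyp n 0) : TabOk n (9, 101100999, 900101101) :=
  run_sound H s0j9t101100999b900101101 (nil_ok n)

theorem c_s0j8t10110099b90101101 {n : ℕ} (H : Hyp n 0) : TabOk n (8, 10110099, 90101101) :=
  run_sound H s0j8t10110099b90101101 (nil_ok n)

theorem c_s0j5t10110b1101 {n : ℕ} (H : Hyp n 0) : TabOk n (5, 10110, 1101) :=
  run_sound H s0j5t10110b1101 (cons_ok (c_s0j8t10110099b90101101 H) (cons_ok (c_s0j9t101100999b900101101 H) (cons_ok (c_s0j10t1011009999b9000101101 H) (cons_ok (c_s0j15t101100999990109b910990000101101 H) (nil_ok n)))))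

theorem c_s0j4t1010b101 {n : ℕ} (H : Hyp n 0) : TabOk n (4, 1010, 101) :=
  run_sound H s0j4t1010b101 (cons_ok (c_s0j5t10101b10101 H) (nil_ok n))

theorem c_s0j4t1011b1101 {n : ℕ} (H : Hyp n 0) : TabOk n (4, 1011, 1101) :=
  run_sound H s0j4t1011b1101 (cons_ok (c_s0j5t10110b1101 H) (nil_ok n))

theorem c_s0j16t1101099999910099b10090000011011 {n : ℕ} (H : Hyp n 0) : TabOk n (16, 1101099999910099, 10090000011011) :=
  run_sound H s0j16t1101099999910099b10090000011011 (nil_ok n)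

theorem c_s0j15t110109999910099b1009000011011 {n : ℕ} (H : Hyp n 0) : TabOk n (15, 110109999910099, 1009000011011) :=
  run_sound H s0j15t110109999910099b1009000011011 (nil_ok n)

theorem c_s0j9t110109999b11011 {n : ℕ} (H : Hyp n 0) : TabOk n (9, 110109999, 11011) :=
  run_sound H s0j9t110109999b11011 (cons_ok (c_s0j16t1101099999910099b10090000011011 H) (cons_ok (c_s0j15t110109999910099b1009000011011 H) (nil_ok n)))

theorem c_s0j8t11010999b90011011 {n : ℕ} (H : Hyp n 0) : TabOk n (8, 11010999, 90011011) :=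
  run_sound H s0j8t11010999b90011011 (nil_ok n)

theorem c_s0j5t11010b1011 {n : ℕ} (H : Hyp n 0) : TabOk n (5, 11010, 1011) :=
  run_sound H s0j5t11010b1011 (nil_ok n)

theorem c_s0j4t1101b1011 {n : ℕ} (H : Hyp n 0) : TabOk n (4, 1101, 1011) :=
  run_sound H s0j4t1101b1011 (cons_ok (c_s0j5t11010b1011 H) (cons_ok (c_s0j8t11010999b90011011 H) (cons_ok (c_s0j9t110109999b11011 H) (nil_ok n))))

theorem c_s0j4t1112b8811 {n : ℕ} (H : Hyp n 0) : TabOk n (4, 1112, 8811) :=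
  run_sound H s0j4t1112b8811 (nil_ok n)

theorem c_s0j3t111b111 {n : ℕ} (H : Hyp n 0) : TabOk n (3, 111, 111) :=
  run_sound H s0j3t111b111 (nil_ok n)

theorem c_s0j3t111b811 {n : ℕ} (H : Hyp n 0) : TabOk n (3, 111, 811) :=
  run_sound H s0j3t111b811 (cons_ok (c_s0j4t1112b8811 H) (nil_ok n))

theorem c_s0j3t110b11 {n : ℕ} (H : Hyp n 0) : TabOk n (3, 110, 11) :=
  run_sound H s0j3t110b11 (cons_ok (c_s0j4t1101b1011 H) (nil_ok n))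

theorem c_s0j3t110b111 {n : ℕ} (H : Hyp n 0) : TabOk n (3, 110, 111) :=
  run_sound H s0j3t110b111 (nil_ok n)

theorem c_s0j5t12121b91191 {n : ℕ} (H : Hyp n 0) : TabOk n (5, 12121, 91191) :=
  run_sound H s0j5t12121b91191 (nil_ok n)

theorem c_s0j2t11b11 {n : ℕ} (H : Hyp n 0) : TabOk n (2, 11, 11) :=
  run_sound H s0j2t11b11 (cons_ok (c_s0j3t111b111 H) (cons_ok (c_s0j3t111b811 H) (cons_ok (c_s0j3t110b11 H) (cons_ok (c_s0j3t110b111 H) (nil_ok n)))))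

theorem c_s0j2t12b61 {n : ℕ} (H : Hyp n 0) : TabOk n (2, 12, 61) :=
  run_sound H s0j2t12b61 (nil_ok n)

theorem c_s0j2t10b1 {n : ℕ} (H : Hyp n 0) : TabOk n (2, 10, 1) :=
  run_sound H s0j2t10b1 (cons_ok (c_s0j4t1010b101 H) (cons_ok (c_s0j4t1011b1101 H) (nil_ok n)))

theorem c_s0j2t11b81 {n : ℕ} (H : Hyp n 0) : TabOk n (2, 11, 81) :=
  run_sound H s0j2t11b81 (nil_ok n)

theorem c_s0j2t11b51 {n : ℕ} (H : Hyp n 0) : TabOk n (2, 11, 51) :=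
  run_sound H s0j2t11b51 (nil_ok n)

theorem c_s0j2t12b91 {n : ℕ} (H : Hyp n 0) : TabOk n (2, 12, 91) :=
  run_sound H s0j2t12b91 (cons_ok (c_s0j5t12121b91191 H) (nil_ok n))

theorem c_s0j1t1b1 {n : ℕ} (H : Hyp n 0) : TabOk n (1, 1, 1) :=
  run_sound H s0j1t1b1 (cons_ok (c_s0j2t11b11 H) (cons_ok (c_s0j2t12b61 H) (cons_ok (c_s0j2t10b1 H) (cons_ok (c_s0j2t11b81 H) (cons_ok (c_s0j2t11b51 H) (cons_ok (c_s0j2t12b91 H) (nil_ok n)))))))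

theorem c_s0j2t19b13 {n : ℕ} (H : Hyp n 0) : TabOk n (2, 19, 13) :=
  run_sound H s0j2t19b13 (nil_ok n)

theorem c_s0j1t1b3 {n : ℕ} (H : Hyp n 0) : TabOk n (1, 1, 3) :=
  run_sound H s0j1t1b3 (cons_ok (c_s0j2t19b13 H) (nil_ok n))

theorem c_s0j4t1666b404 {n : ℕ} (H : Hyp n 0) : TabOk n (4, 1666, 404) :=
  run_sound H s0j4t1666b404 (nil_ok n)

theorem c_s0j2t16b4 {n : ℕ} (H : Hyp n 0) : TabOk n (2, 16, 4) :=
  run_sound H s0j2t16b4 (cons_ok (c_s0j4t1666b404 H) (nil_ok n))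

theorem c_s0j2t16b44 {n : ℕ} (H : Hyp n 0) : TabOk n (2, 16, 44) :=
  run_sound H s0j2t16b44 (nil_ok n)

theorem c_s0j1t1b4 {n : ℕ} (H : Hyp n 0) : TabOk n (1, 1, 4) :=
  run_sound H s0j1t1b4 (cons_ok (c_s0j2t16b4 H) (cons_ok (c_s0j2t16b44 H) (nil_ok n)))

theorem c_s0j1t1b5 {n : ℕ} (H : Hyp n 0) : TabOk n (1, 1, 5) :=
  run_sound H s0j1t1b5 (nil_ok n)

theorem c_s0j2t19b66 {n : ℕ} (H : Hyp n 0) : TabOk n (2, 19, 66) :=
  run_sound H s0j2t19b66 (nil_ok n)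

theorem c_s0j2t19b16 {n : ℕ} (H : Hyp n 0) : TabOk n (2, 19, 16) :=
  run_sound H s0j2t19b16 (nil_ok n)

theorem c_s0j2t18b76 {n : ℕ} (H : Hyp n 0) : TabOk n (2, 18, 76) :=
  run_sound H s0j2t18b76 (nil_ok n)

theorem c_s0j1t1b6 {n : ℕ} (H : Hyp n 0) : TabOk n (1, 1, 6) :=
  run_sound H s0j1t1b6 (cons_ok (c_s0j2t19b66 H) (cons_ok (c_s0j2t19b16 H) (cons_ok (c_s0j2t18b76 H) (nil_ok n))))

theorem c_s0j4t1444b7887 {n : ℕ} (H : Hyp n 0) : TabOk n (4, 1444, 7887) :=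
  run_sound H s0j4t1444b7887 (nil_ok n)

theorem c_s0j2t14b87 {n : ℕ} (H : Hyp n 0) : TabOk n (2, 14, 87) :=
  run_sound H s0j2t14b87 (cons_ok (c_s0j4t1444b7887 H) (nil_ok n))

theorem c_s0j1t1b7 {n : ℕ} (H : Hyp n 0) : TabOk n (1, 1, 7) :=
  run_sound H s0j1t1b7 (cons_ok (c_s0j2t14b87 H) (nil_ok n))

theorem c_s0j2t14b98 {n : ℕ} (H : Hyp n 0) : TabOk n (2, 14, 98) :=
  run_sound H s0j2t14b98 (nil_ok n)

theorem c_s0j2t13b88 {n : ℕ} (H : Hyp n 0) : TabOk n (2, 13, 88) :=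
  run_sound H s0j2t13b88 (nil_ok n)

theorem c_s0j2t13b68 {n : ℕ} (H : Hyp n 0) : TabOk n (2, 13, 68) :=
  run_sound H s0j2t13b68 (nil_ok n)

theorem c_s0j1t1b8 {n : ℕ} (H : Hyp n 0) : TabOk n (1, 1, 8) :=
  run_sound H s0j1t1b8 (cons_ok (c_s0j2t14b98 H) (cons_ok (c_s0j2t13b88 H) (cons_ok (c_s0j2t13b68 H) (nil_ok n))))

theorem c_s0j3t200b252 {n : ℕ} (H : Hyp n 0) : TabOk n (3, 200, 252) :=
  run_sound H s0j3t200b252 (nil_ok n)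

theorem c_s0j2t20b22 {n : ℕ} (H : Hyp n 0) : TabOk n (2, 20, 22) :=
  run_sound H s0j2t20b22 (nil_ok n)

theorem c_s0j2t20b52 {n : ℕ} (H : Hyp n 0) : TabOk n (2, 20, 52) :=
  run_sound H s0j2t20b52 (cons_ok (c_s0j3t200b252 H) (nil_ok n))

theorem c_s0j1t2b2 {n : ℕ} (H : Hyp n 0) : TabOk n (1, 2, 2) :=
  run_sound H s0j1t2b2 (cons_ok (c_s0j2t20b22 H) (cons_ok (c_s0j2t20b52 H) (nil_ok n)))

theorem c_s0j2t21b19 {n : ℕ} (H : Hyp n 0) : TabOk n (2, 21, 19) :=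
  run_sound H s0j2t21b19 (nil_ok n)

theorem c_s0j1t2b9 {n : ℕ} (H : Hyp n 0) : TabOk n (1, 2, 9) :=
  run_sound H s0j1t2b9 (cons_ok (c_s0j2t21b19 H) (nil_ok n))

theorem c_s1j2t22b71 {n : ℕ} (H : Hyp n 1) : TabOk n (2, 22, 71) :=
  run_sound H s1j2t22b71 (nil_ok n)

theorem c_s1j2t26b61 {n : ℕ} (H : Hyp n 1) : TabOk n (2, 26, 61) :=
  run_sound H s1j2t26b61 (nil_ok n)

theorem c_s1j2t23b11 {n : ℕ} (H : Hyp n 1) : TabOk n (2, 23, 11) :=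
  run_sound H s1j2t23b11 (nil_ok n)

theorem c_s1j1t2b1 {n : ℕ} (H : Hyp n 1) : TabOk n (1, 2, 1) :=
  run_sound H s1j1t2b1 (cons_ok (c_s1j2t22b71 H) (cons_ok (c_s1j2t26b61 H) (cons_ok (c_s1j2t23b11 H) (nil_ok n))))

theorem c_s1j1t2b8 {n : ℕ} (H : Hyp n 1) : TabOk n (1, 2, 8) :=
  run_sound H s1j1t2b8 (nil_ok n)

theorem c_s1j2t34b34 {n : ℕ} (H : Hyp n 1) : TabOk n (2, 34, 34) :=
  run_sound H s1j2t34b34 (nil_ok n)

theorem c_s1j2t36b44 {n : ℕ} (H : Hyp n 1) : TabOk n (2, 36, 44) :=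
  run_sound H s1j2t36b44 (nil_ok n)

theorem c_s1j2t35b14 {n : ℕ} (H : Hyp n 1) : TabOk n (2, 35, 14) :=
  run_sound H s1j2t35b14 (nil_ok n)

theorem c_s1j2t34b84 {n : ℕ} (H : Hyp n 1) : TabOk n (2, 34, 84) :=
  run_sound H s1j2t34b84 (nil_ok n)

theorem c_s1j1t3b4 {n : ℕ} (H : Hyp n 1) : TabOk n (1, 3, 4) :=
  run_sound H s1j1t3b4 (cons_ok (c_s1j2t34b34 H) (cons_ok (c_s1j2t36b44 H) (cons_ok (c_s1j2t35b14 H) (cons_ok (c_s1j2t34b84 H) (nil_ok n)))))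

theorem c_s1j2t38b55 {n : ℕ} (H : Hyp n 1) : TabOk n (2, 38, 55) :=
  run_sound H s1j2t38b55 (nil_ok n)

theorem c_s1j2t37b85 {n : ℕ} (H : Hyp n 1) : TabOk n (2, 37, 85) :=
  run_sound H s1j2t37b85 (nil_ok n)

theorem c_s1j2t37b65 {n : ℕ} (H : Hyp n 1) : TabOk n (2, 37, 65) :=
  run_sound H s1j2t37b65 (nil_ok n)

theorem c_s1j1t3b5 {n : ℕ} (H : Hyp n 1) : TabOk n (1, 3, 5) :=
  run_sound H s1j1t3b5 (cons_ok (c_s1j2t38b55 H) (cons_ok (c_s1j2t37b85 H) (cons_ok (c_s1j2t37b65 H) (nil_ok n))))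

theorem c_s1j1t3b6 {n : ℕ} (H : Hyp n 1) : TabOk n (1, 3, 6) :=
  run_sound H s1j1t3b6 (nil_ok n)

theorem c_s1j4t3222b7777 {n : ℕ} (H : Hyp n 1) : TabOk n (4, 3222, 7777) :=
  run_sound H s1j4t3222b7777 (nil_ok n)

theorem c_s1j3t322b777 {n : ℕ} (H : Hyp n 1) : TabOk n (3, 322, 777) :=
  run_sound H s1j3t322b777 (cons_ok (c_s1j4t3222b7777 H) (nil_ok n))

theorem c_s1j3t323b677 {n : ℕ} (H : Hyp n 1) : TabOk n (3, 323, 677) :=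
  run_sound H s1j3t323b677 (nil_ok n)

theorem c_s1j4t3303b6967 {n : ℕ} (H : Hyp n 1) : TabOk n (4, 3303, 6967) :=
  run_sound H s1j4t3303b6967 (nil_ok n)

theorem c_s1j5t33222b7767 {n : ℕ} (H : Hyp n 1) : TabOk n (5, 33222, 7767) :=
  run_sound H s1j5t33222b7767 (nil_ok n)

theorem c_s1j4t3322b7767 {n : ℕ} (H : Hyp n 1) : TabOk n (4, 3322, 7767) :=
  run_sound H s1j4t3322b7767 (cons_ok (c_s1j5t33222b7767 H) (nil_ok n))

theorem c_s1j5t33320b97667 {n : ℕ} (H : Hyp n 1) : TabOk n (5, 33320, 97667) :=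
  run_sound H s1j5t33320b97667 (nil_ok n)

theorem c_s1j4t3332b7667 {n : ℕ} (H : Hyp n 1) : TabOk n (4, 3332, 7667) :=
  run_sound H s1j4t3332b7667 (cons_ok (c_s1j5t33320b97667 H) (nil_ok n))

theorem c_s1j4t3330b9667 {n : ℕ} (H : Hyp n 1) : TabOk n (4, 3330, 9667) :=
  run_sound H s1j4t3330b9667 (nil_ok n)

theorem c_s1j3t333b667 {n : ℕ} (H : Hyp n 1) : TabOk n (3, 333, 667) :=
  run_sound H s1j3t333b667 (cons_ok (c_s1j4t3332b7667 H) (cons_ok (c_s1j4t3330b9667 H) (nil_ok n)))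

theorem c_s1j3t330b967 {n : ℕ} (H : Hyp n 1) : TabOk n (3, 330, 967) :=
  run_sound H s1j3t330b967 (cons_ok (c_s1j4t3303b6967 H) (nil_ok n))

theorem c_s1j2t33b27 {n : ℕ} (H : Hyp n 1) : TabOk n (2, 33, 27) :=
  run_sound H s1j2t33b27 (nil_ok n)

theorem c_s1j2t32b77 {n : ℕ} (H : Hyp n 1) : TabOk n (2, 32, 77) :=
  run_sound H s1j2t32b77 (cons_ok (c_s1j3t322b777 H) (cons_ok (c_s1j3t323b677 H) (nil_ok n)))

theorem c_s1j2t33b97 {n : ℕ} (H : Hyp n 1) : TabOk n (2, 33, 97) :=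
  run_sound H s1j2t33b97 (nil_ok n)

theorem c_s1j2t33b67 {n : ℕ} (H : Hyp n 1) : TabOk n (2, 33, 67) :=
  run_sound H s1j2t33b67 (cons_ok (c_s1j3t333b667 H) (cons_ok (c_s1j3t330b967 H) (cons_ok (c_s1j4t3322b7767 H) (nil_ok n))))

theorem c_s1j1t3b7 {n : ℕ} (H : Hyp n 1) : TabOk n (1, 3, 7) :=
  run_sound H s1j1t3b7 (cons_ok (c_s1j2t33b27 H) (cons_ok (c_s1j2t32b77 H) (cons_ok (c_s1j2t33b97 H) (cons_ok (c_s1j2t33b67 H) (nil_ok n)))))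

theorem c_s1j2t30b88 {n : ℕ} (H : Hyp n 1) : TabOk n (2, 30, 88) :=
  run_sound H s1j2t30b88 (nil_ok n)

theorem c_s1j1t3b8 {n : ℕ} (H : Hyp n 1) : TabOk n (1, 3, 8) :=
  run_sound H s1j1t3b8 (cons_ok (c_s1j2t30b88 H) (nil_ok n))

theorem c_s1j2t44b92 {n : ℕ} (H : Hyp n 1) : TabOk n (2, 44, 92) :=
  run_sound H s1j2t44b92 (nil_ok n)

theorem c_s1j2t44b42 {n : ℕ} (H : Hyp n 1) : TabOk n (2, 44, 42) :=
  run_sound H s1j2t44b42 (nil_ok n)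

theorem c_s1j2t44b82 {n : ℕ} (H : Hyp n 1) : TabOk n (2, 44, 82) :=
  run_sound H s1j2t44b82 (nil_ok n)

theorem c_s1j2t43b22 {n : ℕ} (H : Hyp n 1) : TabOk n (2, 43, 22) :=
  run_sound H s1j2t43b22 (nil_ok n)

theorem c_s1j1t4b2 {n : ℕ} (H : Hyp n 1) : TabOk n (1, 4, 2) :=
  run_sound H s1j1t4b2 (cons_ok (c_s1j2t44b92 H) (cons_ok (c_s1j2t44b42 H) (cons_ok (c_s1j2t44b82 H) (cons_ok (c_s1j2t43b22 H) (nil_ok n)))))

theorem c_s1j2t41b73 {n : ℕ} (H : Hyp n 1) : TabOk n (2, 41, 73) :=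
  run_sound H s1j2t41b73 (nil_ok n)

theorem c_s1j2t41b33 {n : ℕ} (H : Hyp n 1) : TabOk n (2, 41, 33) :=
  run_sound H s1j2t41b33 (nil_ok n)

theorem c_s1j1t4b3 {n : ℕ} (H : Hyp n 1) : TabOk n (1, 4, 3) :=
  run_sound H s1j1t4b3 (cons_ok (c_s1j2t41b73 H) (cons_ok (c_s1j2t41b33 H) (nil_ok n)))

theorem c_s1j2t41b66 {n : ℕ} (H : Hyp n 1) : TabOk n (2, 41, 66) :=
  run_sound H s1j2t41b66 (nil_ok n)

theorem c_s1j1t4b6 {n : ℕ} (H : Hyp n 1) : TabOk n (1, 4, 6) :=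
  run_sound H s1j1t4b6 (cons_ok (c_s1j2t41b66 H) (nil_ok n))

theorem c_s1j3t448b969 {n : ℕ} (H : Hyp n 1) : TabOk n (3, 448, 969) :=
  run_sound H s1j3t448b969 (nil_ok n)

theorem c_s1j2t46b99 {n : ℕ} (H : Hyp n 1) : TabOk n (2, 46, 99) :=
  run_sound H s1j2t46b99 (nil_ok n)

theorem c_s1j2t44b69 {n : ℕ} (H : Hyp n 1) : TabOk n (2, 44, 69) :=
  run_sound H s1j2t44b69 (cons_ok (c_s1j3t448b969 H) (nil_ok n))

theorem c_s1j1t4b9 {n : ℕ} (H : Hyp n 1) : TabOk n (1, 4, 9) :=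
  run_sound H s1j1t4b9 (cons_ok (c_s1j2t46b99 H) (cons_ok (c_s1j2t44b69 H) (nil_ok n)))

theorem c_s2j2t46b1 {n : ℕ} (H : Hyp n 2) : TabOk n (2, 46, 1) :=
  run_sound H s2j2t46b1 (nil_ok n)

theorem c_s2j1t4b1 {n : ℕ} (H : Hyp n 2) : TabOk n (1, 4, 1) :=
  run_sound H s2j1t4b1 (cons_ok (c_s2j2t46b1 H) (nil_ok n))

theorem c_s2j2t51b11 {n : ℕ} (H : Hyp n 2) : TabOk n (2, 51, 11) :=
  run_sound H s2j2t51b11 (nil_ok n)

theorem c_s2j2t55b21 {n : ℕ} (H : Hyp n 2) : TabOk n (2, 55, 21) :=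
  run_sound H s2j2t55b21 (nil_ok n)

theorem c_s2j2t55b91 {n : ℕ} (H : Hyp n 2) : TabOk n (2, 55, 91) :=
  run_sound H s2j2t55b91 (nil_ok n)

theorem c_s2j2t53b51 {n : ℕ} (H : Hyp n 2) : TabOk n (2, 53, 51) :=
  run_sound H s2j2t53b51 (nil_ok n)

theorem c_s2j2t57b31 {n : ℕ} (H : Hyp n 2) : TabOk n (2, 57, 31) :=
  run_sound H s2j2t57b31 (nil_ok n)

theorem c_s2j2t56b61 {n : ℕ} (H : Hyp n 2) : TabOk n (2, 56, 61) :=
  run_sound H s2j2t56b61 (nil_ok n)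

theorem c_s2j1t5b1 {n : ℕ} (H : Hyp n 2) : TabOk n (1, 5, 1) :=
  run_sound H s2j1t5b1 (cons_ok (c_s2j2t51b11 H) (cons_ok (c_s2j2t55b21 H) (cons_ok (c_s2j2t55b91 H) (cons_ok (c_s2j2t53b51 H) (cons_ok (c_s2j2t57b31 H) (cons_ok (c_s2j2t56b61 H) (nil_ok n)))))))

theorem c_s2j1t5b8 {n : ℕ} (H : Hyp n 2) : TabOk n (1, 5, 8) :=
  run_sound H s2j1t5b8 (nil_ok n)

theorem c_s2j2t69b77 {n : ℕ} (H : Hyp n 2) : TabOk n (2, 69, 77) :=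
  run_sound H s2j2t69b77 (nil_ok n)

theorem c_s2j1t6b7 {n : ℕ} (H : Hyp n 2) : TabOk n (1, 6, 7) :=
  run_sound H s2j1t6b7 (cons_ok (c_s2j2t69b77 H) (nil_ok n))

theorem c_s2j3t664b448 {n : ℕ} (H : Hyp n 2) : TabOk n (3, 664, 448) :=
  run_sound H s2j3t664b448 (nil_ok n)

theorem c_s2j2t66b98 {n : ℕ} (H : Hyp n 2) : TabOk n (2, 66, 98) :=
  run_sound H s2j2t66b98 (nil_ok n)

theorem c_s2j2t64b88 {n : ℕ} (H : Hyp n 2) : TabOk n (2, 64, 88) :=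
  run_sound H s2j2t64b88 (nil_ok n)

theorem c_s2j2t66b48 {n : ℕ} (H : Hyp n 2) : TabOk n (2, 66, 48) :=
  run_sound H s2j2t66b48 (cons_ok (c_s2j3t664b448 H) (nil_ok n))

theorem c_s2j2t61b18 {n : ℕ} (H : Hyp n 2) : TabOk n (2, 61, 18) :=
  run_sound H s2j2t61b18 (nil_ok n)

theorem c_s2j1t6b8 {n : ℕ} (H : Hyp n 2) : TabOk n (1, 6, 8) :=
  run_sound H s2j1t6b8 (cons_ok (c_s2j2t66b98 H) (cons_ok (c_s2j2t64b88 H) (cons_ok (c_s2j2t66b48 H) (cons_ok (c_s2j2t61b18 H) (nil_ok n)))))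

theorem c_s2j2t78b44 {n : ℕ} (H : Hyp n 2) : TabOk n (2, 78, 44) :=
  run_sound H s2j2t78b44 (nil_ok n)

theorem c_s2j2t77b54 {n : ℕ} (H : Hyp n 2) : TabOk n (2, 77, 54) :=
  run_sound H s2j2t77b54 (nil_ok n)

theorem c_s2j2t77b4 {n : ℕ} (H : Hyp n 2) : TabOk n (2, 77, 4) :=
  run_sound H s2j2t77b4 (nil_ok n)

theorem c_s2j2t78b94 {n : ℕ} (H : Hyp n 2) : TabOk n (2, 78, 94) :=
  run_sound H s2j2t78b94 (nil_ok n)

theorem c_s2j1t7b4 {n : ℕ} (H : Hyp n 2) : TabOk n (1, 7, 4) :=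
  run_sound H s2j1t7b4 (cons_ok (c_s2j2t78b44 H) (cons_ok (c_s2j2t77b54 H) (cons_ok (c_s2j2t77b4 H) (cons_ok (c_s2j2t78b94 H) (nil_ok n)))))

theorem c_s2j1t7b5 {n : ℕ} (H : Hyp n 2) : TabOk n (1, 7, 5) :=
  run_sound H s2j1t7b5 (nil_ok n)

theorem c_s2j1t7b7 {n : ℕ} (H : Hyp n 2) : TabOk n (1, 7, 7) :=
  run_sound H s2j1t7b7 (nil_ok n)

theorem c_s2j1t8b3 {n : ℕ} (H : Hyp n 2) : TabOk n (1, 8, 3) :=
  run_sound H s2j1t8b3 (nil_ok n)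

theorem c_s2j3t833b955 {n : ℕ} (H : Hyp n 2) : TabOk n (3, 833, 955) :=
  run_sound H s2j3t833b955 (nil_ok n)

theorem c_s2j3t833b155 {n : ℕ} (H : Hyp n 2) : TabOk n (3, 833, 155) :=
  run_sound H s2j3t833b155 (nil_ok n)

theorem c_s2j2t83b55 {n : ℕ} (H : Hyp n 2) : TabOk n (2, 83, 55) :=
  run_sound H s2j2t83b55 (cons_ok (c_s2j3t833b955 H) (cons_ok (c_s2j3t833b155 H) (nil_ok n)))

theorem c_s2j2t83b75 {n : ℕ} (H : Hyp n 2) : TabOk n (2, 83, 75) :=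
  run_sound H s2j2t83b75 (nil_ok n)

theorem c_s2j2t83b35 {n : ℕ} (H : Hyp n 2) : TabOk n (2, 83, 35) :=
  run_sound H s2j2t83b35 (nil_ok n)

theorem c_s2j1t8b5 {n : ℕ} (H : Hyp n 2) : TabOk n (1, 8, 5) :=
  run_sound H s2j1t8b5 (cons_ok (c_s2j2t83b55 H) (cons_ok (c_s2j2t83b75 H) (cons_ok (c_s2j2t83b35 H) (nil_ok n))))

theorem c_s2j3t884b666 {n : ℕ} (H : Hyp n 2) : TabOk n (3, 884, 666) :=
  run_sound H s2j3t884b666 (nil_ok n)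

theorem c_s2j3t885b66 {n : ℕ} (H : Hyp n 2) : TabOk n (3, 885, 66) :=
  run_sound H s2j3t885b66 (nil_ok n)

theorem c_s2j2t88b66 {n : ℕ} (H : Hyp n 2) : TabOk n (2, 88, 66) :=
  run_sound H s2j2t88b66 (cons_ok (c_s2j3t884b666 H) (cons_ok (c_s2j3t885b66 H) (nil_ok n)))

theorem c_s2j2t85b46 {n : ℕ} (H : Hyp n 2) : TabOk n (2, 85, 46) :=
  run_sound H s2j2t85b46 (nil_ok n)

theorem c_s2j2t88b16 {n : ℕ} (H : Hyp n 2) : TabOk n (2, 88, 16) :=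
  run_sound H s2j2t88b16 (nil_ok n)

theorem c_s2j2t86b86 {n : ℕ} (H : Hyp n 2) : TabOk n (2, 86, 86) :=
  run_sound H s2j2t86b86 (nil_ok n)

theorem c_s2j1t8b6 {n : ℕ} (H : Hyp n 2) : TabOk n (1, 8, 6) :=
  run_sound H s2j1t8b6 (cons_ok (c_s2j2t88b66 H) (cons_ok (c_s2j2t85b46 H) (cons_ok (c_s2j2t88b16 H) (cons_ok (c_s2j2t86b86 H) (nil_ok n)))))

theorem c_s2j2t94b22 {n : ℕ} (H : Hyp n 2) : TabOk n (2, 94, 22) :=
  run_sound H s2j2t94b22 (nil_ok n)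

theorem c_s2j2t95b42 {n : ℕ} (H : Hyp n 2) : TabOk n (2, 95, 42) :=
  run_sound H s2j2t95b42 (nil_ok n)

theorem c_s2j2t95b92 {n : ℕ} (H : Hyp n 2) : TabOk n (2, 95, 92) :=
  run_sound H s2j2t95b92 (nil_ok n)

theorem c_s2j1t9b2 {n : ℕ} (H : Hyp n 2) : TabOk n (1, 9, 2) :=
  run_sound H s2j1t9b2 (cons_ok (c_s2j2t94b22 H) (cons_ok (c_s2j2t95b42 H) (cons_ok (c_s2j2t95b92 H) (nil_ok n))))

theorem c_s2j2t90b33 {n : ℕ} (H : Hyp n 2) : TabOk n (2, 90, 33) :=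
  run_sound H s2j2t90b33 (nil_ok n)

theorem c_s2j1t9b3 {n : ℕ} (H : Hyp n 2) : TabOk n (1, 9, 3) :=
  run_sound H s2j1t9b3 (cons_ok (c_s2j2t90b33 H) (nil_ok n))

theorem c_s2j2t97b79 {n : ℕ} (H : Hyp n 2) : TabOk n (2, 97, 79) :=
  run_sound H s2j2t97b79 (nil_ok n)

theorem c_s2j2t99b29 {n : ℕ} (H : Hyp n 2) : TabOk n (2, 99, 29) :=
  run_sound H s2j2t99b29 (nil_ok n)

theorem c_s2j2t99b59 {n : ℕ} (H : Hyp n 2) : TabOk n (2, 99, 59) :=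
  run_sound H s2j2t99b59 (nil_ok n)

theorem c_s2j1t9b9 {n : ℕ} (H : Hyp n 2) : TabOk n (1, 9, 9) :=
  run_sound H s2j1t9b9 (cons_ok (c_s2j2t97b79 H) (cons_ok (c_s2j2t99b29 H) (cons_ok (c_s2j2t99b59 H) (nil_ok n))))

/-- The possible first pairs of digits. -/
def roots : List (ℕ × ℕ × ℕ) := [(0, 1, 1), (0, 1, 3), (0, 1, 4), (0, 1, 5), (0, 1, 6), (0, 1, 7), (0, 1, 8), (0, 2, 2), (0, 2, 9), (1, 2, 1), (1, 2, 8), (1, 3, 4), (1, 3, 5), (1, 3, 6), (1, 3, 7), (1, 3, 8), (1, 4, 2), (1, 4, 3), (1, 4, 6), (1, 4, 9), (2, 4, 1), (2, 5, 1), (2, 5, 8), (2, 6, 7), (2, 6, 8), (2, 7, 4), (2, 7, 5), (2, 7, 7), (2, 8, 3), (2, 8, 5), (2, 8, 6), (2, 9, 2), (2, 9, 3), (2, 9, 9)]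

theorem roots_ok {n : ℕ} {s x y : ℕ} (H : Hyp n s) (h : (s, x, y) ∈ roots) : TabOk n (1, x, y) := by
  simp only [roots, List.mem_cons, List.not_mem_nil, or_false, Prod.mk.injEq] at h
  rcases h with ⟨rfl, rfl, rfl⟩ | ⟨rfl, rfl, rfl⟩ | ⟨rfl, rfl, rfl⟩ | ⟨rfl, rfl, rfl⟩ | ⟨rfl, rfl, rfl⟩ | ⟨rfl, rfl, rfl⟩ | ⟨rfl, rfl, rfl⟩ | ⟨rfl, rfl, rfl⟩ | ⟨rfl, rfl, rfl⟩ | ⟨rfl, rfl, rfl⟩ | ⟨rfl, rfl, rfl⟩ | ⟨rfl, rfl, rfl⟩ | ⟨rfl, rfl, rfl⟩ | ⟨rfl, rfl, rfl⟩ | ⟨rfl, rfl, rfl⟩ | ⟨rfl, rfl, rfl⟩ | ⟨rfl, rfl, rfl⟩ | ⟨rfl, rfl, rfl⟩ | ⟨rfl, rfl, rfl⟩ | ⟨rfl, rfl, rfl⟩ | ⟨rfl, rfl, rfl⟩ | ⟨rfl, rfl, rfl⟩ | ⟨rfl, rfl, rfl⟩ | ⟨rfl, rfl, rfl⟩ | ⟨rfl, rfl, rfl⟩ | ⟨rfl, rfl, rfl⟩ | ⟨rfl, rfl, rfl⟩ | ⟨rfl, rfl, rfl⟩ | ⟨rfl, rfl, rfl⟩ | ⟨rfl, rfl, rfl⟩ | ⟨rfl, rfl, rfl⟩ | ⟨rfl, rfl, rfl⟩ | ⟨rfl, rfl, rfl⟩ | ⟨rfl, rfl, rfl⟩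
  · exact c_s0j1t1b1 H
  · exact c_s0j1t1b3 H
  · exact c_s0j1t1b4 H
  · exact c_s0j1t1b5 H
  · exact c_s0j1t1b6 H
  · exact c_s0j1t1b7 H
  · exact c_s0j1t1b8 H
  · exact c_s0j1t2b2 H
  · exact c_s0j1t2b9 H
  · exact c_s1j1t2b1 H
  · exact c_s1j1t2b8 H
  · exact c_s1j1t3b4 H
  · exact c_s1j1t3b5 H
  · exact c_s1j1t3b6 H
  · exact c_s1j1t3b7 H
  · exact c_s1j1t3b8 H
  · exact c_s1j1t4b2 H
  · exact c_s1j1t4b3 H
  · exact c_s1j1t4b6 H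
  · exact c_s1j1t4b9 H
  · exact c_s2j1t4b1 H
  · exact c_s2j1t5b1 H
  · exact c_s2j1t5b8 H
  · exact c_s2j1t6b7 H
  · exact c_s2j1t6b8 H
  · exact c_s2j1t7b4 H
  · exact c_s2j1t7b5 H
  · exact c_s2j1t7b7 H
  · exact c_s2j1t8b3 H
  · exact c_s2j1t8b5 H
  · exact c_s2j1t8b6 H
  · exact c_s2j1t9b2 H
  · exact c_s2j1t9b3 H
  · exact c_s2j1t9b9 H

/-- The test of one first pair of digits. -/
def rootTest (s x y : ℕ) : Bool :=
  !(Nat.ble 1 (y ^ 3 % 10)) || !(Nat.ble (x ^ 3 + 1) ((y ^ 3 % 10 + 1) * 10 ^ s)) ||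
    !(Nat.ble (y ^ 3 % 10 * 10 ^ s + 1) ((x + 1) ^ 3)) || !(Nat.ble 1 x) ||
    roots.elem (s, x, y)

theorem rootTest_all : ((List.range 3).all fun s => (List.range 10).all fun x =>
    (List.range 10).all fun y => rootTest s x y) = true := by
  decide +kernel

theorem roots_all {s x y : ℕ} (hs : s < 3) (hx : x < 10) (hy : y < 10) (h1 : 1 ≤ y ^ 3 % 10)
    (h2 : x ^ 3 < (y ^ 3 % 10 + 1) * 10 ^ s) (h3 : y ^ 3 % 10 * 10 ^ s < (x + 1) ^ 3)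
    (h4 : 1 ≤ x) : (s, x, y) ∈ roots := by
  have h := rootTest_all
  rw [List.all_eq_true] at h
  have ha := h s (List.mem_range.2 hs)
  rw [List.all_eq_true] at ha
  have hb := ha x (List.mem_range.2 hx)
  rw [List.all_eq_true] at hb
  have hc := hb y (List.mem_range.2 hy)
  have e1 : Nat.ble 1 (y ^ 3 % 10) = true := Nat.ble_eq ▸ h1
  have e2 : Nat.ble (x ^ 3 + 1) ((y ^ 3 % 10 + 1) * 10 ^ s) = true := Nat.ble_eq ▸ h2
  have e3 : Nat.ble (y ^ 3 % 10 * 10 ^ s + 1) ((x + 1) ^ 3) = true := Nat.ble_eq ▸ h3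
  have e4 : Nat.ble 1 x = true := Nat.ble_eq ▸ h4
  unfold rootTest at hc
  rw [e1, e2, e3, e4] at hc
  simpa using hc

end Pool.Agent.CB53
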