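import Mathlib

/-!
# A two-ended digit search for palindromic cubes: the checker

All definitions are written with the raw recursors and split into small pieces, so that the kernel
evaluates them quickly.
-/

set_option autoImplicit false

namespace Pool.Agent.CB53

/-- Evaluate `n`, then continue. -/
noncomputable def fc {β : Type} (n : ℕ) (k : ℕ → β) : β :=
  @Nat.rec (fun _ => β) (k n) (fun m _ => k m) (Nat.succ n)

/-- `p x` holds for all `x < n`. -/
noncomputable def allB (n : ℕ) (p : ℕ → Bool) : Bool :=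
  @Nat.rec (fun _ => Bool) true (fun k ih => @Bool.rec (fun _ => Bool) false ih (p k)) n

/-- `p` holds on a list. -/
noncomputable def allL (l : List ℕ) (p : ℕ → Bool) : Bool :=
  @List.rec ℕ (fun _ => Bool) true (fun x _ ih => @Bool.rec (fun _ => Bool) false ih (p x)) l

/-- Membership in a list. -/
noncomputable def mem (y : ℕ) (l : List ℕ) : Bool :=
  @List.rec ℕ (fun _ => Bool) false
    (fun x _ ih => @Bool.rec (fun _ => Bool) ih true (Nat.beq x y)) l

/-- Reversal of the decimal digits. -/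
noncomputable def rv (fuel : ℕ) : ℕ → ℕ → ℕ :=
  @Nat.rec (fun _ => ℕ → ℕ → ℕ) (fun _ r => r)
    (fun _ ih n r => @Bool.rec (fun _ => ℕ)
      (fc (Nat.div n 10) fun n' => fc (Nat.add (Nat.mul 10 r) (Nat.mod n 10)) fun r' => ih n' r')
      r (Nat.beq n 0)) fuel

/-- Final test: `n` is `2201` or a palindrome, or its cube `N` is not a palindrome. -/
noncomputable def fin (n N : ℕ) : Bool :=
  @Bool.rec (fun _ => Bool)
    (@Bool.rec (fun _ => Bool)
      (@Bool.rec (fun _ => Bool) true false (Nat.beq (rv N N 0) N))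
      true (Nat.beq (rv n n 0) n))
    true (Nat.beq n 2201)

/-- Type of the continued test. -/
abbrev LT := ℕ → ℕ → ℕ → ℕ → ℕ → ℕ → Bool

/-- The interval test, followed by `z`. -/
noncomputable def ck (Q' R' T' : ℕ) (z : Bool) : Bool :=
  @Bool.rec (fun _ => Bool) true
    (@Bool.rec (fun _ => Bool) true z
      (Nat.ble (Nat.succ (Nat.mul R' Q')) (Nat.pow (Nat.succ T') 3)))
    (Nat.ble (Nat.succ (Nat.pow T' 3)) (Nat.mul (Nat.succ R') Q'))

/-- A step of the continued test. -/
noncomputable def leaf1 (ih : LT) (n N W P Q R : ℕ) : Bool :=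
  fc (Nat.div W 10) (fun W' =>
    fc (Nat.add (Nat.mul 10 R) (Nat.mod (Nat.div N P) 10)) (fun R' =>
      fc (Nat.mul 100 Q) (fun Q' => ck Q' R' (Nat.div n W')
        (fc (Nat.mul 10 P) (fun P' => ih n N W' P' Q' R')))))

/-- The continued test of one number `n` with cube `N`. -/
noncomputable def leaf (fuel : ℕ) : LT :=
  @Nat.rec (fun _ => LT) (fun n N _ _ _ _ => fin n N)
    (fun _ ih n N W P Q R =>
      @Bool.rec (fun _ => Bool) (leaf1 ih n N W P Q R) (fin n N) (Nat.ble W 1)) fuel

/-- The continued test started from `n`. -/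
noncomputable def lf (n W P Q R : ℕ) : Bool :=
  fc n (fun n => fc (Nat.pow n 3) (fun N => fc W (fun W => fc P (fun P => fc Q (fun Q =>
    leaf 30 n N W P Q R)))))

/-- Type of the node test: level `j`, then
`T B R`, top digits, their number, low digits, their number, flag, last two pairs. -/
abbrev NT := ℕ → ℕ → ℕ → ℕ → List ℕ → ℕ → List ℕ → ℕ → ℕ → ℕ → ℕ → ℕ → ℕ → Bool

/-- The new flag of a mirrored pair of digits. -/
noncomputable def fl (x y : ℕ) : ℕ :=
  @Bool.rec (fun _ => ℕ) (@Bool.rec (fun _ => ℕ) 0 2 (Nat.beq (Nat.add x y) 18)) 1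
    (Nat.beq (Nat.add x y) 0)

/-- The flags forbid the pair. -/
noncomputable def bad (f' f : ℕ) : Bool :=
  @Bool.rec (fun _ => Bool) (Nat.beq f' f) false (Nat.beq f' 0)

/-- Visit the child with low digit `y`, an old low digit. -/
noncomputable def y2 (rec : NT) (j P T10 B : ℕ) (mt : List ℕ) (a : ℕ) (mb : List ℕ)
    (b f lx ly x y R' : ℕ) : Bool :=
  @Bool.rec (fun _ => Bool)
    (fc (Nat.succ j) (fun j' => fc (Nat.add T10 x) (fun T' => fc (Nat.add B (Nat.mul y P))
      (fun B' => fc R' (fun R' => rec j' T' B' R' mt a mb b (fl x y) x y lx ly)))))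
    true (bad (fl x y) f)

/-- Visit the child with low digit `y`, which may be new. -/
noncomputable def y3 (rec : NT) (j P T10 B : ℕ) (mt : List ℕ) (a : ℕ) (mb : List ℕ)
    (b f lx ly x y R' : ℕ) : Bool :=
  @Bool.rec (fun _ => Bool)
    (y2 rec j P T10 B mt a (y :: mb) (Nat.succ b) f lx ly x y R')
    (y2 rec j P T10 B mt a mb b f lx ly x y R') (mem y mb)

/-- Test the low digit `y`. -/
noncomputable def y1 (K : ℕ → ℕ → Bool) (R10 c k u v y : ℕ) : Bool :=
  @Bool.rec (fun _ => Bool) true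
    (@Bool.rec (fun _ => Bool) true
      (K y (Nat.add R10 (Nat.mod (Nat.add c (Nat.mul k y)) 10)))
      (Nat.ble (Nat.add R10 (Nat.mod (Nat.add c (Nat.mul k y)) 10)) v))
    (Nat.ble u (Nat.add R10 (Nat.mod (Nat.add c (Nat.mul k y)) 10)))

/-- All low digits. -/
noncomputable def ys (rec : NT) (j P T10 R10 B c k : ℕ) (mt : List ℕ) (a : ℕ) (mb : List ℕ)
    (b f lx ly x u v : ℕ) : Bool :=
  @Bool.rec (fun _ => Bool)
    (@Bool.rec (fun _ => Bool) true
      (allL mb (y1 (y2 rec j P T10 B mt a mb b f lx ly x) R10 c k u v))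
      (Nat.ble (Nat.mul a b) 9))
    (allB 10 (y1 (y3 rec j P T10 B mt a mb b f lx ly x) R10 c k u v))
    (Nat.ble (Nat.mul a (Nat.succ b)) 9)

/-- All low digits, for a top digit `x` which may be new. -/
noncomputable def yt (rec : NT) (j P T10 R10 B c k : ℕ) (mt : List ℕ) (a : ℕ) (mb : List ℕ)
    (b f lx ly x u v : ℕ) : Bool :=
  @Bool.rec (fun _ => Bool)
    (ys rec j P T10 R10 B c k (x :: mt) (Nat.succ a) mb b f lx ly x u v)
    (ys rec j P T10 R10 B c k mt a mb b f lx ly x u v) (mem x mt)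

/-- The interval test of the top digit `x`, with the quotients `u`, `v`. -/
noncomputable def x2 (K : ℕ → ℕ → ℕ → Bool) (R10 x u v : ℕ) : Bool :=
  @Bool.rec (fun _ => Bool) true
    (@Bool.rec (fun _ => Bool) true (fc u (fun u => fc v (K x u))) (Nat.ble R10 v))
    (Nat.ble u (Nat.add R10 9))

/-- The top digit `x`. -/
noncomputable def x1 (K : ℕ → ℕ → ℕ → Bool) (Q' T10 R10 x : ℕ) : Bool :=
  x2 K R10 x (Nat.div (Nat.pow (Nat.add T10 x) 3) Q')
    (Nat.div (Nat.pred (Nat.pow (Nat.succ (Nat.add T10 x)) 3)) Q')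

/-- All top digits. -/
noncomputable def xs (rec : NT) (j P Q' T10 R10 B c k : ℕ) (mt : List ℕ) (a : ℕ)
    (mb : List ℕ) (b f lx ly : ℕ) : Bool :=
  @Bool.rec (fun _ => Bool)
    (allL mt (x1 (ys rec j P T10 R10 B c k mt a mb b f lx ly) Q' T10 R10))
    (allB 10 (x1 (yt rec j P T10 R10 B c k mt a mb b f lx ly) Q' T10 R10))
    (Nat.ble (Nat.mul (Nat.succ a) b) 9)

/-- The test of the number of even length `2 * j`. -/
noncomputable def ev (P Q Q' T B R T10 R10 c k lx ly : ℕ) : Bool :=
  ck Q' (Nat.add R10 (Nat.mod (Nat.add c (Nat.mul k lx)) 10)) (Nat.add T10 ly)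
    (lf (Nat.add (Nat.mul T P) B) P P Q R)

/-- The test of the number of odd length `2 * j - 1`. -/
noncomputable def od (P Q Q' T B R T10 R10 c k px py : ℕ) : Bool :=
  ck Q' (Nat.add R10 (Nat.mod (Nat.add c (Nat.mul k px)) 10)) (Nat.add T10 py)
    (lf (Nat.add (Nat.mul T (Nat.div P 10)) (Nat.mod B (Nat.div P 10))) (Nat.div P 10) P Q R)

/-- One level of the search: even length, odd length, children. -/
noncomputable def step2 (rec : NT) (j P Q Q' T B R T10 R10 c k : ℕ) (mt : List ℕ) (a : ℕ)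
    (mb : List ℕ) (b f lx ly px py : ℕ) : Bool :=
  @Bool.rec (fun _ => Bool) false
    (@Bool.rec (fun _ => Bool) false
      (xs rec j P Q' T10 R10 B c k mt a mb b f lx ly)
      (@Bool.rec (fun _ => Bool) true (od P Q Q' T B R T10 R10 c k px py) (Nat.beq lx ly)))
    (ev P Q Q' T B R T10 R10 c k lx ly)

/-- One level of the search. -/
noncomputable def step (s : ℕ) (rec : NT) (j T B R : ℕ) (mt : List ℕ) (a : ℕ) (mb : List ℕ)
    (b f lx ly px py : ℕ) : Bool :=
  fc (Nat.mod (Nat.div (Nat.pow B 3) (Nat.pow 10 j)) 10) (fun c =>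
    fc (Nat.mod (Nat.mul 3 (Nat.mul B B)) 10) (fun k =>
      step2 rec j (Nat.pow 10 j) (Nat.div (Nat.pow 10 (Nat.add (Nat.add j j) s)) 100)
        (Nat.pow 10 (Nat.add (Nat.add j j) s))
        T B R (Nat.mul 10 T) (Nat.mul 10 R) c k mt a mb b f lx ly px py))

/-- The pair `T`, `B` is in the table. -/
noncomputable def look (tab : List (ℕ × ℕ × ℕ)) (j T B : ℕ) : Bool :=
  @List.rec (ℕ × ℕ × ℕ) (fun _ => Bool) false
    (fun e _ ih => @Bool.rec (fun _ => Bool) ih
      (@Bool.rec (fun _ => Bool) ih (@Bool.rec (fun _ => Bool) ih true (Nat.beq e.1 j))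
        (Nat.beq e.2.2 B)) (Nat.beq e.2.1 T)) tab

/-- The search with `fuel` levels left; the nodes in the table are skipped. -/
noncomputable def go (tab : List (ℕ × ℕ × ℕ)) (s fuel : ℕ) : NT :=
  @Nat.rec (fun _ => NT) (fun _ _ _ _ _ _ _ _ _ _ _ _ _ => false)
    (fun _ ih j T B R mt a mb b f lx ly px py =>
      @Bool.rec (fun _ => Bool) (step s ih j T B R mt a mb b f lx ly px py) true
        (look tab j T B)) fuel

/-- The state of the search at level `j` with given `T`, `B`. -/
structure St where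
  /-- reversed low digits of the cube -/
  R : ℕ
  /-- top digits -/
  mt : List ℕ
  /-- number of top digits -/
  a : ℕ
  /-- low digits -/
  mb : List ℕ
  /-- number of low digits -/
  b : ℕ
  /-- flag -/
  f : ℕ
  /-- last top digit -/
  lx : ℕ
  /-- last low digit -/
  ly : ℕ
  /-- previous top digit -/
  px : ℕ
  /-- previous low digit -/
  py : ℕ

/-- The state at level `j + 1`. -/
noncomputable def stOf (j : ℕ) : ℕ → ℕ → St :=
  @Nat.rec (fun _ => ℕ → ℕ → St)
    (fun T B => ⟨B ^ 3 % 10, [T], 1, [B], 1, fl T B, T, B, 0, 0⟩)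
    (fun j ih T B =>
      let S := ih (T / 10) (B % 10 ^ (j + 1))
      let x := T % 10
      let y := B / 10 ^ (j + 1)
      ⟨10 * S.R + B ^ 3 / 10 ^ (j + 1) % 10,
        if mem x S.mt then S.mt else x :: S.mt, if mem x S.mt then S.a else S.a + 1,
        if mem y S.mb then S.mb else y :: S.mb, if mem y S.mb then S.b else S.b + 1,
        fl x y, x, y, S.lx, S.ly⟩) j

/-- The search from level `j + 1`. -/
noncomputable def run (tab : List (ℕ × ℕ × ℕ)) (s j T B : ℕ) : Bool :=
  go tab s 100 (j + 1) T B (stOf j T B).R (stOf j T B).mt (stOf j T B).a (stOf j T B).mb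
    (stOf j T B).b (stOf j T B).f (stOf j T B).lx (stOf j T B).ly (stOf j T B).px
    (stOf j T B).py

end Pool.Agent.CB53
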