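import Pool.Agent.CB53.Search

/-!
# Soundness of a run of the search
-/

set_option autoImplicit false

namespace Pool.Agent.CB53

theorem top_digit {n : ℕ} (h : 1 ≤ ln n) : n / 10 ^ (ln n - 1) = dg n (ln n - 1) := by
  rw [dg, Nat.mod_eq_of_lt]
  rw [Nat.div_lt_iff_lt_mul (pow_pos (by norm_num) _)]
  have h1 := lt_pow_ln n
  have h2 : 10 * 10 ^ (ln n - 1) = 10 ^ ln n := by
    rw [← pow_succ']
    congr 1
    omega
  rw [h2]
  exact h1

theorem dg_pow_mod (n i : ℕ) : dg (n ^ 3) i = (n % 10 ^ (i + 1)) ^ 3 / 10 ^ i % 10 := by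
  have h : ∀ m : ℕ, m / 10 ^ i % 10 = m % 10 ^ (i + 1) / 10 ^ i := by
    intro m
    rw [pow_succ, Nat.mod_mul_right_div_self]
  rw [dg, h, h, Nat.pow_mod]

theorem stOf_inv {n s : ℕ} (H : Hyp n s) : ∀ j : ℕ, j + 1 ≤ hf n → ∀ T B : ℕ,
    T = n / 10 ^ (ln n - (j + 1)) → B = n % 10 ^ (j + 1) →
    Inv n (j + 1) T B (stOf j T B).R (stOf j T B).mt (stOf j T B).a (stOf j T B).mb
      (stOf j T B).b (stOf j T B).f (stOf j T B).lx (stOf j T B).ly (stOf j T B).px
      (stOf j T B).py
  | 0, hj, T, B, hT, hB => by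
      have htwo := H.two
      have hL := ln_cube H
      have e : stOf 0 T B = ⟨B ^ 3 % 10, [T], 1, [B], 1, fl T B, T, B, 0, 0⟩ := rfl
      rw [e]
      have hT' : T = dg n (ln n - (0 + 1)) := by
        rw [hT]; exact top_digit (by omega)
      have hB' : B = dg n 0 := by
        rw [hB, dg]
        norm_num
      refine ⟨le_refl _, hj, hT, hB, ?_, ?_, ?_, ?_, ?_, ?_, hT', hB', ?_⟩
      · show B ^ 3 % 10 = _
        have h1 : n ^ 3 / 10 ^ (ln (n ^ 3) - (0 + 1)) = dg (n ^ 3) (ln (n ^ 3) - 1) :=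
          top_digit (by omega)
        rw [h1]
        have h2 := H.pal 0 (by omega)
        rw [Nat.sub_zero] at h2
        rw [← h2, dg_pow_mod, hB]
        norm_num
      · intro x
        rw [List.mem_singleton, topS_succ, hT']
        simp [topS]
      · rw [topS_succ]
        simp [topS]
      · intro x
        rw [List.mem_singleton, botS_succ, hB']
        simp [botS]
      · rw [botS_succ]
        simp [botS]
      · show fl T B = _
        rw [hT', hB']
      · intro h
        omega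
  | j + 1, hj, T, B, hT, hB => by
      have hlt : j + 1 < ln n := hf_lt H hj
      have hT1 : T / 10 = n / 10 ^ (ln n - (j + 1)) := by
        rw [hT, next_T hlt]
        have := dg_lt n (ln n - (j + 1 + 1))
        omega
      have hx : T % 10 = dg n (ln n - (j + 1 + 1)) := by
        rw [hT, next_T hlt]
        have := dg_lt n (ln n - (j + 1 + 1))
        omega
      have hB1 : B % 10 ^ (j + 1) = n % 10 ^ (j + 1) := by
        rw [hB, Nat.mod_mod_of_dvd _ (pow_dvd_pow 10 (by omega : j + 1 ≤ j + 1 + 1))]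
      have hy : B / 10 ^ (j + 1) = dg n (j + 1) := by
        rw [hB, dg, pow_succ, Nat.mod_mul_right_div_self]
      have I := stOf_inv H j (by omega) (T / 10) (B % 10 ^ (j + 1)) hT1 hB1
      have e : stOf (j + 1) T B = ⟨10 * (stOf j (T / 10) (B % 10 ^ (j + 1))).R +
          B ^ 3 / 10 ^ (j + 1) % 10,
        if mem (T % 10) (stOf j (T / 10) (B % 10 ^ (j + 1))).mt then
          (stOf j (T / 10) (B % 10 ^ (j + 1))).mt
          else (T % 10) :: (stOf j (T / 10) (B % 10 ^ (j + 1))).mt,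
        if mem (T % 10) (stOf j (T / 10) (B % 10 ^ (j + 1))).mt then
          (stOf j (T / 10) (B % 10 ^ (j + 1))).a
          else (stOf j (T / 10) (B % 10 ^ (j + 1))).a + 1,
        if mem (B / 10 ^ (j + 1)) (stOf j (T / 10) (B % 10 ^ (j + 1))).mb then
          (stOf j (T / 10) (B % 10 ^ (j + 1))).mb
          else (B / 10 ^ (j + 1)) :: (stOf j (T / 10) (B % 10 ^ (j + 1))).mb,
        if mem (B / 10 ^ (j + 1)) (stOf j (T / 10) (B % 10 ^ (j + 1))).mb then
          (stOf j (T / 10) (B % 10 ^ (j + 1))).b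
          else (stOf j (T / 10) (B % 10 ^ (j + 1))).b + 1,
        fl (T % 10) (B / 10 ^ (j + 1)), T % 10, B / 10 ^ (j + 1),
        (stOf j (T / 10) (B % 10 ^ (j + 1))).lx, (stOf j (T / 10) (B % 10 ^ (j + 1))).ly⟩ := rfl
      rw [e]
      set S := stOf j (T / 10) (B % 10 ^ (j + 1)) with hS
      refine ⟨by omega, hj, hT, hB, ?_, ?_, ?_, ?_, ?_, ?_, ?_, ?_, ?_⟩
      · show 10 * S.R + B ^ 3 / 10 ^ (j + 1) % 10 = _
        rw [next_N H hlt, I.R, dg_pow_mod, hB]
      · intro x
        show x ∈ (if mem (T % 10) S.mt then S.mt else (T % 10) :: S.mt) ↔ _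
        rw [topS_succ, ← hx]
        by_cases hm : T % 10 ∈ S.mt
        · rw [if_pos ((mem_iff _).2 hm), Finset.insert_eq_self.2 ((I.mt _).1 hm)]
          exact I.mt x
        · rw [if_neg (fun hc => hm ((mem_iff _).1 hc))]
          exact (upd_mem I.mt _ hm).1 x
      · show (if mem (T % 10) S.mt then S.a else S.a + 1) = _
        rw [topS_succ, ← hx]
        by_cases hm : T % 10 ∈ S.mt
        · rw [if_pos ((mem_iff _).2 hm), Finset.insert_eq_self.2 ((I.mt _).1 hm)]
          exact I.a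
        · rw [if_neg (fun hc => hm ((mem_iff _).1 hc)), (upd_mem I.mt _ hm).2, I.a]
      · intro x
        show x ∈ (if mem (B / 10 ^ (j + 1)) S.mb then S.mb else (B / 10 ^ (j + 1)) :: S.mb) ↔ _
        rw [botS_succ, ← hy]
        by_cases hm : B / 10 ^ (j + 1) ∈ S.mb
        · rw [if_pos ((mem_iff _).2 hm), Finset.insert_eq_self.2 ((I.mb _).1 hm)]
          exact I.mb x
        · rw [if_neg (fun hc => hm ((mem_iff _).1 hc))]
          exact (upd_mem I.mb _ hm).1 x
      · show (if mem (B / 10 ^ (j + 1)) S.mb then S.b else S.b + 1) = _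
        rw [botS_succ, ← hy]
        by_cases hm : B / 10 ^ (j + 1) ∈ S.mb
        · rw [if_pos ((mem_iff _).2 hm), Finset.insert_eq_self.2 ((I.mb _).1 hm)]
          exact I.b
        · rw [if_neg (fun hc => hm ((mem_iff _).1 hc)), (upd_mem I.mb _ hm).2, I.b]
      · show fl (T % 10) (B / 10 ^ (j + 1)) = _
        rw [hx, hy, Nat.add_sub_cancel]
      · exact hx
      · show B / 10 ^ (j + 1) = _
        rw [hy, Nat.add_sub_cancel]
      · intro _
        refine ⟨?_, ?_⟩
        · show S.lx = _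
          rw [I.lx]
          congr 1
          omega
        · show S.ly = _
          rw [I.ly]
          congr 1

/-- A successful run is sound. -/
theorem run_sound {n s : ℕ} (H : Hyp n s) {tab : List (ℕ × ℕ × ℕ)} {j T B : ℕ}
    (h : run tab s j T B = true) (ht : ∀ e ∈ tab, TabOk n e) : TabOk n (j + 1, T, B) := by
  intro _ hj hT hB
  exact go_ok H ht 100 _ _ _ _ _ _ _ _ _ _ _ _ _ (stOf_inv H j hj T B hT.symm hB.symm) h

theorem nil_ok (n : ℕ) : ∀ e ∈ ([] : List (ℕ × ℕ × ℕ)), TabOk n e := by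
  intro e he
  exact absurd he (List.not_mem_nil)

theorem cons_ok {n : ℕ} {e : ℕ × ℕ × ℕ} {l : List (ℕ × ℕ × ℕ)} (h : TabOk n e)
    (hl : ∀ e ∈ l, TabOk n e) : ∀ e' ∈ e :: l, TabOk n e' := by
  intro e' he'
  rcases List.mem_cons.1 he' with h1 | h1
  · rw [h1]; exact h
  · exact hl _ h1

end Pool.Agent.CB53
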