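import Pool.Agent.CB53.Sound

/-!
# Soundness of the search: one level, and the whole search
-/

set_option autoImplicit false

namespace Pool.Agent.CB53

/-- The top `j` digits of `n`, as a set. -/
def topS (n j : ℕ) : Finset ℕ := (Finset.range j).image (fun i => dg n (ln n - 1 - i))

/-- The low `j` digits of `n`, as a set. -/
def botS (n j : ℕ) : Finset ℕ := (Finset.range j).image (fun i => dg n i)

/-- Half of the number of digits, rounded up. -/
def hf (n : ℕ) : ℕ := (ln n + 1) / 2

/-- The hypotheses on `n`. -/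
structure Hyp (n s : ℕ) : Prop where
  two : 2 ≤ ln n
  hs : ln (n ^ 3) + 2 = 3 * ln n + s
  pal : ∀ i, i < ln (n ^ 3) → dg (n ^ 3) i = dg (n ^ 3) (ln (n ^ 3) - 1 - i)
  revN : rv (n ^ 3) (n ^ 3) 0 = n ^ 3
  card : (topS n (hf n)).card * (botS n (hf n)).card ≤ 9
  flag : ∀ i, i + 1 < hf n →
    bad (fl (dg n (ln n - 1 - (i + 1))) (dg n (i + 1))) (fl (dg n (ln n - 1 - i)) (dg n i)) = false

/-- The conclusion. -/
def Con (n : ℕ) : Prop := n = 2201 ∨ rv n n 0 = n

theorem fin_sound {n s : ℕ} (H : Hyp n s) (h : fin n (n ^ 3) = true) : Con n := by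
  by_cases h1 : n = 2201
  · exact Or.inl h1
  · by_cases h2 : rv n n 0 = n
    · exact Or.inr h2
    · exfalso
      have e1 : Nat.beq n 2201 = false := beq_false h1
      have e2 : Nat.beq (rv n n 0) n = false := beq_false h2
      have e3 : Nat.beq (rv (n ^ 3) (n ^ 3) 0) (n ^ 3) = true := by
        rw [H.revN]; exact Nat.beq_refl _
      unfold fin at h
      rw [e1, e2, e3] at h
      exact absurd h (by decide)

theorem ck_iff {Q' R' T' : ℕ} {z : Bool} : ck Q' R' T' z = true ↔
    (T' ^ 3 < (R' + 1) * Q' → R' * Q' < (T' + 1) ^ 3 → z = true) := by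
  have e : ck Q' R' T' z = @Bool.rec (fun _ => Bool) true
    (@Bool.rec (fun _ => Bool) true z (Nat.ble (R' * Q' + 1) ((T' + 1) ^ 3)))
    (Nat.ble (T' ^ 3 + 1) ((R' + 1) * Q')) := rfl
  rw [e, rec_tt, rec_tt, Nat.ble_eq, Nat.ble_eq]
  rfl

theorem ln_cube {n s : ℕ} (H : Hyp n s) : ln n < ln (n ^ 3) := by
  have := H.hs
  have := H.two
  omega

theorem next_T {n j : ℕ} (h : j < ln n) :
    n / 10 ^ (ln n - (j + 1)) = 10 * (n / 10 ^ (ln n - j)) + dg n (ln n - (j + 1)) := by
  have h1 : ln n - j = ln n - (j + 1) + 1 := by omega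
  rw [h1]
  exact div_step n _

theorem next_N {n s j : ℕ} (H : Hyp n s) (h : j < ln n) :
    n ^ 3 / 10 ^ (ln (n ^ 3) - (j + 1)) =
      10 * (n ^ 3 / 10 ^ (ln (n ^ 3) - j)) + dg (n ^ 3) j := by
  have h0 := ln_cube H
  have h1 : ln (n ^ 3) - j = ln (n ^ 3) - (j + 1) + 1 := by omega
  rw [h1, H.pal j (by omega)]
  have h2 : ln (n ^ 3) - 1 - j = ln (n ^ 3) - (j + 1) := by omega
  rw [h2]
  exact div_step _ _

theorem next_R {n s j : ℕ} (H : Hyp n s) (h1 : 1 ≤ j) (h : j < ln n) :
    n ^ 3 / 10 ^ (ln (n ^ 3) - (j + 1)) = 10 * (n ^ 3 / 10 ^ (ln (n ^ 3) - j)) +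
      ((n % 10 ^ j) ^ 3 / 10 ^ j % 10 +
      3 * ((n % 10 ^ j) * (n % 10 ^ j)) % 10 * dg n j) % 10 := by
  rw [next_N H h, dg_cube n j h1]

theorem leaf_sound {n s : ℕ} (H : Hyp n s) : ∀ (k j : ℕ), 1 ≤ j → j ≤ ln n →
    leaf k n (n ^ 3) (10 ^ (ln n - j)) (10 ^ j) (10 ^ (2 * j - 2 + s))
      (n ^ 3 / 10 ^ (ln (n ^ 3) - j)) = true → Con n
  | 0, j, _, _, h => fin_sound H h
  | k + 1, j, h1, h2, h => by
      have e : leaf (k + 1) n (n ^ 3) (10 ^ (ln n - j)) (10 ^ j) (10 ^ (2 * j - 2 + s))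
        (n ^ 3 / 10 ^ (ln (n ^ 3) - j)) = @Bool.rec (fun _ => Bool)
          (ck (100 * 10 ^ (2 * j - 2 + s))
            (10 * (n ^ 3 / 10 ^ (ln (n ^ 3) - j)) + n ^ 3 / 10 ^ j % 10)
            (n / (10 ^ (ln n - j) / 10))
            (leaf k n (n ^ 3) (10 ^ (ln n - j) / 10) (10 * 10 ^ j) (100 * 10 ^ (2 * j - 2 + s))
              (10 * (n ^ 3 / 10 ^ (ln (n ^ 3) - j)) + n ^ 3 / 10 ^ j % 10)))
          (fin n (n ^ 3)) (Nat.ble (10 ^ (ln n - j)) 1) := rfl
      rw [e] at h
      rcases Nat.lt_or_ge j (ln n) with hlt | hge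
      · have hb : Nat.ble (10 ^ (ln n - j)) 1 = false := by
          cases hb : Nat.ble (10 ^ (ln n - j)) 1 with
          | false => rfl
          | true =>
            exfalso
            rw [Nat.ble_eq] at hb
            have : 10 ^ 1 ≤ 10 ^ (ln n - j) := Nat.pow_le_pow_right (by norm_num) (by omega)
            omega
        rw [hb] at h
        have hW : 10 ^ (ln n - j) / 10 = 10 ^ (ln n - (j + 1)) := by
          have : ln n - j = ln n - (j + 1) + 1 := by omega
          rw [this, pow_succ, Nat.mul_div_cancel _ (by norm_num)]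
        have hQ : 100 * 10 ^ (2 * j - 2 + s) = 10 ^ (2 * (j + 1) - 2 + s) := by
          have : 2 * (j + 1) - 2 + s = (2 * j - 2 + s) + 2 := by omega
          rw [this, pow_add]; ring
        have hR : 10 * (n ^ 3 / 10 ^ (ln (n ^ 3) - j)) + n ^ 3 / 10 ^ j % 10 =
            n ^ 3 / 10 ^ (ln (n ^ 3) - (j + 1)) := (next_N H hlt).symm
        have hP : 10 * 10 ^ j = 10 ^ (j + 1) := by rw [pow_succ]; ring
        rw [hW, hQ, hR, hP] at h
        have hi := interval H.hs (by omega : 1 ≤ j + 1) (by omega : j + 1 ≤ ln n)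
        exact leaf_sound H k (j + 1) (by omega) (by omega) (ck_iff.1 h hi.1 hi.2)
      · have hj : ln n - j = 0 := by omega
        have hb : Nat.ble (10 ^ (ln n - j)) 1 = true := by rw [hj]; rfl
        rw [hb] at h
        exact fin_sound H h

theorem lf_sound {n s m : ℕ} (H : Hyp n s) {j W P Q R : ℕ} (h1 : 1 ≤ j) (h2 : j ≤ ln n)
    (hm : m = n) (hW : W = 10 ^ (ln n - j)) (hP : P = 10 ^ j) (hQ : Q = 10 ^ (2 * j - 2 + s))
    (hR : R = n ^ 3 / 10 ^ (ln (n ^ 3) - j)) (h : lf m W P Q R = true) : Con n := by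
  subst hm hW hP hQ hR
  exact leaf_sound H 30 j h1 h2 h

/-- The invariant of a node. -/
structure Inv (n j T B R : ℕ) (mt : List ℕ) (a : ℕ) (mb : List ℕ) (b f lx ly px py : ℕ) :
    Prop where
  j1 : 1 ≤ j
  jh : j ≤ hf n
  T : T = n / 10 ^ (ln n - j)
  B : B = n % 10 ^ j
  R : R = n ^ 3 / 10 ^ (ln (n ^ 3) - j)
  mt : ∀ x, x ∈ mt ↔ x ∈ topS n j
  a : a = (topS n j).card
  mb : ∀ x, x ∈ mb ↔ x ∈ botS n j
  b : b = (botS n j).card
  f : f = fl (dg n (ln n - j)) (dg n (j - 1))
  lx : lx = dg n (ln n - j)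
  ly : ly = dg n (j - 1)
  pxy : 2 ≤ j → px = dg n (ln n - j + 1) ∧ py = dg n (j - 2)

theorem topS_succ (n j : ℕ) : topS n (j + 1) = insert (dg n (ln n - (j + 1))) (topS n j) := by
  rw [topS, Finset.range_add_one, Finset.image_insert, topS]
  have : ln n - 1 - j = ln n - (j + 1) := by omega
  rw [this]

theorem botS_succ (n j : ℕ) : botS n (j + 1) = insert (dg n j) (botS n j) := by
  rw [botS, Finset.range_add_one, Finset.image_insert, botS]

theorem topS_mono (n : ℕ) {i j : ℕ} (h : i ≤ j) : topS n i ⊆ topS n j :=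
  Finset.image_subset_image (Finset.range_subset_range.2 h)

theorem botS_mono (n : ℕ) {i j : ℕ} (h : i ≤ j) : botS n i ⊆ botS n j :=
  Finset.image_subset_image (Finset.range_subset_range.2 h)

/-- The list of digits is updated correctly. -/
theorem upd_mem {mt : List ℕ} {S : Finset ℕ} (h : ∀ x, x ∈ mt ↔ x ∈ S) (x : ℕ) (hx : x ∉ mt) :
    (∀ z, z ∈ x :: mt ↔ z ∈ insert x S) ∧ (insert x S).card = S.card + 1 := by
  constructor
  · intro z
    rw [List.mem_cons, Finset.mem_insert, h z]
  · exact Finset.card_insert_of_notMem (fun hc => hx ((h x).2 hc))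

/-- A test is sound for `n`. -/
def Ok (n : ℕ) (rec : NT) : Prop := ∀ j T B R mt a mb b f lx ly px py,
  Inv n j T B R mt a mb b f lx ly px py → rec j T B R mt a mb b f lx ly px py = true → Con n

section child

variable {n s : ℕ} (H : Hyp n s) {rec : NT} (hrec : Ok n rec)
  {j T B R : ℕ} {mt : List ℕ} {a : ℕ} {mb : List ℕ} {b f lx ly px py : ℕ}

include H

theorem hf_lt (hj : j + 1 ≤ hf n) : j < ln n := by
  have := H.two
  unfold hf at hj
  omega

include hrec

/-- The child is visited: the sets of digits are already updated. -/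
theorem y2_sound (I : Inv n j T B R mt a mb b f lx ly px py) (hj : j + 1 ≤ hf n)
    {mt' : List ℕ} {a' : ℕ} {mb' : List ℕ} {b' : ℕ}
    (hmt : ∀ x, x ∈ mt' ↔ x ∈ topS n (j + 1)) (ha : a' = (topS n (j + 1)).card)
    (hmb : ∀ x, x ∈ mb' ↔ x ∈ botS n (j + 1)) (hb : b' = (botS n (j + 1)).card)
    {R' : ℕ} (hR : R' = n ^ 3 / 10 ^ (ln (n ^ 3) - (j + 1)))
    (h : y2 rec j (10 ^ j) (10 * T) B mt' a' mb' b' f lx ly (dg n (ln n - (j + 1))) (dg n j) R'
      = true) : Con n := by
  have e : y2 rec j (10 ^ j) (10 * T) B mt' a' mb' b' f lx ly (dg n (ln n - (j + 1))) (dg n j) R'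
      = @Bool.rec (fun _ => Bool)
        (rec (j + 1) (10 * T + dg n (ln n - (j + 1))) (B + dg n j * 10 ^ j) R' mt' a' mb' b'
          (fl (dg n (ln n - (j + 1))) (dg n j)) (dg n (ln n - (j + 1))) (dg n j) lx ly) true
        (bad (fl (dg n (ln n - (j + 1))) (dg n j)) f) := rfl
  rw [e] at h
  have hlt := hf_lt H hj
  have hbad : bad (fl (dg n (ln n - (j + 1))) (dg n j)) f = false := by
    have h1 := H.flag (j - 1) (by have := I.j1; omega)
    have e1 : j - 1 + 1 = j := by have := I.j1; omega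
    have e2 : ln n - 1 - (j - 1) = ln n - j := by have := I.j1; omega
    have e3 : ln n - 1 - j = ln n - (j + 1) := by omega
    rw [e1, e2, e3] at h1
    rw [I.f]
    exact h1
  rw [hbad] at h
  refine hrec _ _ _ _ _ _ _ _ _ _ _ _ _ ?_ h
  refine ⟨by omega, hj, ?_, ?_, hR, hmt, ha, hmb, hb, ?_, rfl, ?_, ?_⟩
  · rw [next_T hlt, I.T]
  · rw [mod_step, I.B]
  · rw [Nat.add_sub_cancel]
  · rw [Nat.add_sub_cancel]
  · intro _
    refine ⟨?_, ?_⟩
    · rw [I.lx]
      congr 1
      omega
    · rw [I.ly]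
      congr 1

/-- All low digits, the set of top digits being updated. -/
theorem ys_sound (I : Inv n j T B R mt a mb b f lx ly px py) (hj : j + 1 ≤ hf n)
    {mt' : List ℕ} {a' : ℕ}
    (hmt : ∀ x, x ∈ mt' ↔ x ∈ topS n (j + 1)) (ha : a' = (topS n (j + 1)).card)
    {u v c k : ℕ} (hc : c = B ^ 3 / 10 ^ j % 10) (hk : k = 3 * (B * B) % 10)
    (hu : u ≤ n ^ 3 / 10 ^ (ln (n ^ 3) - (j + 1)))
    (hv : n ^ 3 / 10 ^ (ln (n ^ 3) - (j + 1)) ≤ v)
    (h : ys rec j (10 ^ j) (10 * T) (10 * R) B c k mt' a' mb b f lx ly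
      (dg n (ln n - (j + 1))) u v = true) : Con n := by
  have hlt := hf_lt H hj
  have hR' : 10 * R + (c + k * dg n j) % 10 = n ^ 3 / 10 ^ (ln (n ^ 3) - (j + 1)) := by
    rw [next_R H I.j1 hlt, I.R, hc, hk, I.B]
  have hcard : a' * (botS n (j + 1)).card ≤ 9 := by
    rw [ha]
    refine le_trans (Nat.mul_le_mul (Finset.card_le_card (topS_mono n hj))
      (Finset.card_le_card (botS_mono n hj))) H.card
  have key : ∀ K : ℕ → ℕ → Bool, y1 K (10 * R) c k u v (dg n j) = true →
      K (dg n j) (n ^ 3 / 10 ^ (ln (n ^ 3) - (j + 1))) = true := by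
    intro K hK
    have e : y1 K (10 * R) c k u v (dg n j) = @Bool.rec (fun _ => Bool) true
      (@Bool.rec (fun _ => Bool) true (K (dg n j) (10 * R + (c + k * dg n j) % 10))
        (Nat.ble (10 * R + (c + k * dg n j) % 10) v))
      (Nat.ble u (10 * R + (c + k * dg n j) % 10)) := rfl
    rw [e, rec_tt, rec_tt, Nat.ble_eq, Nat.ble_eq, hR'] at hK
    exact hK hu hv
  unfold ys at h
  cases hb : Nat.ble (Nat.mul a' (Nat.succ b)) 9 with
  | true =>
    rw [hb] at h
    have h2 := key _ ((allB_iff 10).1 h (dg n j) (dg_lt n j))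
    by_cases hm : dg n j ∈ mb
    · have e : y3 rec j (10 ^ j) (10 * T) B mt' a' mb b f lx ly (dg n (ln n - (j + 1)))
          (dg n j) (n ^ 3 / 10 ^ (ln (n ^ 3) - (j + 1))) =
          y2 rec j (10 ^ j) (10 * T) B mt' a' mb b f lx ly (dg n (ln n - (j + 1)))
          (dg n j) (n ^ 3 / 10 ^ (ln (n ^ 3) - (j + 1))) := by
        unfold y3
        rw [(mem_iff mb).2 hm]
      have h3 := h2
      rw [e] at h3
      have hin : botS n (j + 1) = botS n j := by
        rw [botS_succ, Finset.insert_eq_self]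
        exact (I.mb _).1 hm
      exact y2_sound H hrec I hj hmt ha (by rw [hin]; exact I.mb) (by rw [hin]; exact I.b) rfl h3
    · have e : y3 rec j (10 ^ j) (10 * T) B mt' a' mb b f lx ly (dg n (ln n - (j + 1)))
          (dg n j) (n ^ 3 / 10 ^ (ln (n ^ 3) - (j + 1))) =
          y2 rec j (10 ^ j) (10 * T) B mt' a' (dg n j :: mb) (b + 1) f lx ly
          (dg n (ln n - (j + 1))) (dg n j) (n ^ 3 / 10 ^ (ln (n ^ 3) - (j + 1))) := by
        unfold y3
        have : mem (dg n j) mb = false := by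
          cases h4 : mem (dg n j) mb with
          | false => rfl
          | true => exact absurd ((mem_iff mb).1 h4) hm
        rw [this]
      have h3 := h2
      rw [e] at h3
      have hu2 := upd_mem I.mb (dg n j) hm
      rw [← botS_succ] at hu2
      exact y2_sound H hrec I hj hmt ha hu2.1 (by rw [hu2.2, I.b]) rfl h3
  | false =>
    rw [hb] at h
    have hm : dg n j ∈ mb := by
      by_contra hm
      have hu2 := upd_mem I.mb (dg n j) hm
      rw [← botS_succ] at hu2
      have : a' * (b + 1) ≤ 9 := by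
        rw [I.b, ← hu2.2]
        exact hcard
      have h5 : Nat.ble (Nat.mul a' (Nat.succ b)) 9 = true := Nat.ble_eq ▸ this
      rw [hb] at h5
      exact absurd h5 (by decide)
    have hin : botS n (j + 1) = botS n j := by
      rw [botS_succ, Finset.insert_eq_self]
      exact (I.mb _).1 hm
    have hab : Nat.ble (Nat.mul a' b) 9 = true := by
      rw [Nat.ble_eq]
      show a' * b ≤ 9
      rw [I.b, ← hin]
      exact hcard
    have h1 := rec_tt.1 h hab
    have h2 := key _ ((allL_iff mb).1 h1 (dg n j) hm)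
    exact y2_sound H hrec I hj hmt ha (by rw [hin]; exact I.mb) (by rw [hin]; exact I.b) rfl h2

/-- All digits. -/
theorem xs_sound (I : Inv n j T B R mt a mb b f lx ly px py) (hj : j + 1 ≤ hf n)
    {c k : ℕ} (hc : c = B ^ 3 / 10 ^ j % 10) (hk : k = 3 * (B * B) % 10)
    (h : xs rec j (10 ^ j) (10 ^ (j + j + s)) (10 * T) (10 * R) B c k mt a mb b f lx ly = true) :
    Con n := by
  have hlt := hf_lt H hj
  have hi := interval H.hs (by omega : 1 ≤ j + 1) (by omega : j + 1 ≤ ln n)
  have hQ : 2 * (j + 1) - 2 + s = j + j + s := by omega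
  rw [hQ] at hi
  have hT' : 10 * T + dg n (ln n - (j + 1)) = n / 10 ^ (ln n - (j + 1)) := by
    rw [next_T hlt, I.T]
  have hR' := next_R H I.j1 hlt
  rw [← I.R] at hR'
  have hpQ : 0 < 10 ^ (j + j + s) := pow_pos (by norm_num) _
  have hu : (n / 10 ^ (ln n - (j + 1))) ^ 3 / 10 ^ (j + j + s) ≤
      n ^ 3 / 10 ^ (ln (n ^ 3) - (j + 1)) :=
    Nat.lt_succ_iff.1 ((Nat.div_lt_iff_lt_mul hpQ).2 hi.1)
  have hv : n ^ 3 / 10 ^ (ln (n ^ 3) - (j + 1)) ≤
      ((n / 10 ^ (ln n - (j + 1)) + 1) ^ 3 - 1) / 10 ^ (j + j + s) := by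
    rw [Nat.le_div_iff_mul_le hpQ]
    have := hi.2
    omega
  have key : ∀ K : ℕ → ℕ → ℕ → Bool,
      x1 K (10 ^ (j + j + s)) (10 * T) (10 * R) (dg n (ln n - (j + 1))) = true →
      K (dg n (ln n - (j + 1))) ((n / 10 ^ (ln n - (j + 1))) ^ 3 / 10 ^ (j + j + s))
        (((n / 10 ^ (ln n - (j + 1)) + 1) ^ 3 - 1) / 10 ^ (j + j + s)) = true := by
    intro K hK
    have e : x1 K (10 ^ (j + j + s)) (10 * T) (10 * R) (dg n (ln n - (j + 1))) =
      @Bool.rec (fun _ => Bool) true
        (@Bool.rec (fun _ => Bool) true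
          (K (dg n (ln n - (j + 1))) ((10 * T + dg n (ln n - (j + 1))) ^ 3 / 10 ^ (j + j + s))
            (((10 * T + dg n (ln n - (j + 1)) + 1) ^ 3 - 1) / 10 ^ (j + j + s)))
          (Nat.ble (10 * R) (((10 * T + dg n (ln n - (j + 1)) + 1) ^ 3 - 1) / 10 ^ (j + j + s))))
        (Nat.ble ((10 * T + dg n (ln n - (j + 1))) ^ 3 / 10 ^ (j + j + s)) (10 * R + 9)) := rfl
    rw [e, rec_tt, rec_tt, Nat.ble_eq, Nat.ble_eq, hT'] at hK
    apply hK
    · refine le_trans hu ?_
      rw [hR']
      have := Nat.mod_lt ((n % 10 ^ j) ^ 3 / 10 ^ j % 10 +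
        3 * ((n % 10 ^ j) * (n % 10 ^ j)) % 10 * dg n j) (by norm_num : 0 < 10)
      omega
    · refine le_trans ?_ hv
      rw [hR']
      omega
  have hcard : (topS n (j + 1)).card * b ≤ 9 := by
    rw [I.b]
    refine le_trans (Nat.mul_le_mul (Finset.card_le_card (topS_mono n hj))
      (Finset.card_le_card (botS_mono n (by omega)))) H.card
  unfold xs at h
  cases hb : Nat.ble (Nat.mul (Nat.succ a) b) 9 with
  | true =>
    rw [hb] at h
    have h2 := key _ ((allB_iff 10).1 h (dg n (ln n - (j + 1))) (dg_lt n _))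
    unfold yt at h2
    by_cases hm : dg n (ln n - (j + 1)) ∈ mt
    · rw [(mem_iff mt).2 hm] at h2
      have hin : topS n (j + 1) = topS n j := by
        rw [topS_succ, Finset.insert_eq_self]
        exact (I.mt _).1 hm
      exact ys_sound H hrec I hj (by rw [hin]; exact I.mt) (by rw [hin]; exact I.a) hc hk hu hv h2
    · have : mem (dg n (ln n - (j + 1))) mt = false := by
        cases h4 : mem (dg n (ln n - (j + 1))) mt with
        | false => rfl
        | true => exact absurd ((mem_iff mt).1 h4) hm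
      rw [this] at h2
      have hu2 := upd_mem I.mt _ hm
      rw [← topS_succ] at hu2
      exact ys_sound H hrec I hj hu2.1 (by rw [hu2.2, I.a]) hc hk hu hv h2
  | false =>
    rw [hb] at h
    have hm : dg n (ln n - (j + 1)) ∈ mt := by
      by_contra hm
      have hu2 := upd_mem I.mt _ hm
      rw [← topS_succ] at hu2
      have : (a + 1) * b ≤ 9 := by
        rw [I.a, ← hu2.2]
        exact hcard
      have h5 : Nat.ble (Nat.mul (Nat.succ a) b) 9 = true := Nat.ble_eq ▸ this
      rw [hb] at h5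
      exact absurd h5 (by decide)
    have hin : topS n (j + 1) = topS n j := by
      rw [topS_succ, Finset.insert_eq_self]
      exact (I.mt _).1 hm
    have h2 := key _ ((allL_iff mt).1 h _ hm)
    exact ys_sound H hrec I hj (by rw [hin]; exact I.mt) (by rw [hin]; exact I.a) hc hk hu hv h2

/-- One level. -/
theorem step_ok : Ok n (step s rec) := by
  intro j T B R mt a mb b f lx ly px py I h
  have e : step s rec j T B R mt a mb b f lx ly px py =
    @Bool.rec (fun _ => Bool) false
    (@Bool.rec (fun _ => Bool) false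
      (xs rec j (10 ^ j) (10 ^ (j + j + s)) (10 * T) (10 * R) B (B ^ 3 / 10 ^ j % 10)
        (3 * (B * B) % 10) mt a mb b f lx ly)
      (@Bool.rec (fun _ => Bool) true
        (od (10 ^ j) (10 ^ (j + j + s) / 100) (10 ^ (j + j + s)) T B R (10 * T) (10 * R)
          (B ^ 3 / 10 ^ j % 10) (3 * (B * B) % 10) px py) (Nat.beq lx ly)))
    (ev (10 ^ j) (10 ^ (j + j + s) / 100) (10 ^ (j + j + s)) T B R (10 * T) (10 * R)
          (B ^ 3 / 10 ^ j % 10) (3 * (B * B) % 10) lx ly) := rfl
  rw [e, rec_ff, rec_ff, rec_tt] at h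
  obtain ⟨hev, hod, hxs⟩ := h
  have hj1 := I.j1
  have htwo := H.two
  have hQ2 : 10 ^ (j + j + s) / 100 = 10 ^ (2 * j - 2 + s) := by
    have : j + j + s = (2 * j - 2 + s) + 2 := by omega
    rw [this, pow_add]
    norm_num
  by_cases hj : j = hf n
  · have hl : ln n = 2 * j ∨ ln n = 2 * j - 1 := by unfold hf at hj; omega
    rcases hl with hl | hl
    · -- even length
      have hlt : j < ln n := by omega
      have e1 : ev (10 ^ j) (10 ^ (j + j + s) / 100) (10 ^ (j + j + s)) T B R (10 * T) (10 * R)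
          (B ^ 3 / 10 ^ j % 10) (3 * (B * B) % 10) lx ly =
          ck (10 ^ (j + j + s)) (10 * R + (B ^ 3 / 10 ^ j % 10 + 3 * (B * B) % 10 * lx) % 10)
          (10 * T + ly) (lf (T * 10 ^ j + B) (10 ^ j) (10 ^ j) (10 ^ (j + j + s) / 100) R) := rfl
      rw [e1, ck_iff] at hev
      have hT' : 10 * T + ly = n / 10 ^ (ln n - (j + 1)) := by
        rw [next_T hlt, I.T, I.ly]
        congr 2
        omega
      have hR' : 10 * R + (B ^ 3 / 10 ^ j % 10 + 3 * (B * B) % 10 * lx) % 10 =
          n ^ 3 / 10 ^ (ln (n ^ 3) - (j + 1)) := by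
        rw [next_R H hj1 hlt, ← I.R, ← I.B, I.lx]
        congr 5
        omega
      have hi := interval H.hs (by omega : 1 ≤ j + 1) (by omega : j + 1 ≤ ln n)
      have hQ : 2 * (j + 1) - 2 + s = j + j + s := by omega
      rw [hQ] at hi
      rw [hT', hR'] at hev
      have hlf := hev hi.1 hi.2
      refine lf_sound H hj1 (by omega : j ≤ ln n) ?_ ?_ rfl hQ2 I.R hlf
      · rw [I.T, I.B]
        have : ln n - j = j := by omega
        rw [this]
        exact Nat.div_add_mod' n (10 ^ j)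
      · congr 1
        omega
    · -- odd length
      have hj2 : 2 ≤ j := by omega
      have hlt : j < ln n := by omega
      have heq : lx = ly := by
        rw [I.lx, I.ly]
        congr 1
        omega
      have hod' := hod (by rw [heq]; exact Nat.beq_refl _)
      have e1 : od (10 ^ j) (10 ^ (j + j + s) / 100) (10 ^ (j + j + s)) T B R (10 * T) (10 * R)
          (B ^ 3 / 10 ^ j % 10) (3 * (B * B) % 10) px py =
          ck (10 ^ (j + j + s)) (10 * R + (B ^ 3 / 10 ^ j % 10 + 3 * (B * B) % 10 * px) % 10)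
          (10 * T + py) (lf (T * (10 ^ j / 10) + B % (10 ^ j / 10)) (10 ^ j / 10) (10 ^ j)
            (10 ^ (j + j + s) / 100) R) := rfl
      rw [e1, ck_iff] at hod'
      obtain ⟨hpx, hpy⟩ := I.pxy hj2
      have hT' : 10 * T + py = n / 10 ^ (ln n - (j + 1)) := by
        rw [next_T hlt, I.T, hpy]
        congr 2
        omega
      have hR' : 10 * R + (B ^ 3 / 10 ^ j % 10 + 3 * (B * B) % 10 * px) % 10 =
          n ^ 3 / 10 ^ (ln (n ^ 3) - (j + 1)) := by
        rw [next_R H hj1 hlt, ← I.R, ← I.B, hpx]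
        congr 5
        omega
      have hi := interval H.hs (by omega : 1 ≤ j + 1) (by omega : j + 1 ≤ ln n)
      have hQ : 2 * (j + 1) - 2 + s = j + j + s := by omega
      rw [hQ] at hi
      rw [hT', hR'] at hod'
      have hlf := hod' hi.1 hi.2
      have hP : 10 ^ j / 10 = 10 ^ (j - 1) := by
        have : j = j - 1 + 1 := by omega
        conv_lhs => rw [this, pow_succ]
        exact Nat.mul_div_cancel _ (by norm_num)
      refine lf_sound H hj1 (by omega : j ≤ ln n) ?_ ?_ rfl hQ2 I.R hlf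
      · rw [hP, I.T, I.B]
        have : ln n - j = j - 1 := by omega
        rw [this, Nat.mod_mod_of_dvd _ (pow_dvd_pow 10 (by omega : j - 1 ≤ j))]
        exact Nat.div_add_mod' n (10 ^ (j - 1))
      · rw [hP]
        congr 1
        omega
  · have hj' : j + 1 ≤ hf n := by have := I.jh; omega
    exact xs_sound H hrec I hj' rfl rfl hxs

end child

/-- Soundness of a table entry for `n`. -/
def TabOk (n : ℕ) (e : ℕ × ℕ × ℕ) : Prop :=
  1 ≤ e.1 → e.1 ≤ hf n → n / 10 ^ (ln n - e.1) = e.2.1 → n % 10 ^ e.1 = e.2.2 → Con n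

theorem look_mem : ∀ (tab : List (ℕ × ℕ × ℕ)) (j T B : ℕ), look tab j T B = true →
    (j, T, B) ∈ tab
  | [], j, T, B, h => by
      have : look [] j T B = false := rfl
      rw [this] at h
      exact absurd h (by decide)
  | e :: tab, j, T, B, h => by
      have h0 : look (e :: tab) j T B = @Bool.rec (fun _ => Bool) (look tab j T B)
        (@Bool.rec (fun _ => Bool) (look tab j T B) (@Bool.rec (fun _ => Bool) (look tab j T B)
          true (Nat.beq e.1 j)) (Nat.beq e.2.2 B)) (Nat.beq e.2.1 T) := rfl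
      rw [h0] at h
      by_cases hT : e.2.1 = T
      · by_cases hB : e.2.2 = B
        · by_cases hj : e.1 = j
          · rw [List.mem_cons]
            left
            rw [← hT, ← hB, ← hj]
          · rw [beq_false hj] at h
            have h3 : look tab j T B = true := by
              cases h1 : Nat.beq e.2.1 T <;> cases h2 : Nat.beq e.2.2 B <;> rw [h1, h2] at h <;>
                exact h
            exact List.mem_cons_of_mem _ (look_mem tab j T B h3)
        · rw [beq_false hB] at h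
          have h3 : look tab j T B = true := by
            cases h1 : Nat.beq e.2.1 T <;> rw [h1] at h <;> exact h
          exact List.mem_cons_of_mem _ (look_mem tab j T B h3)
      · rw [beq_false hT] at h
        exact List.mem_cons_of_mem _ (look_mem tab j T B h)

theorem go_ok {n s : ℕ} (H : Hyp n s) {tab : List (ℕ × ℕ × ℕ)} (ht : ∀ e ∈ tab, TabOk n e) :
    ∀ k : ℕ, Ok n (go tab s k)
  | 0 => by
      intro j T B R mt a mb b f lx ly px py _ h
      have : go tab s 0 j T B R mt a mb b f lx ly px py = false := rfl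
      rw [this] at h
      exact absurd h (by decide)
  | k + 1 => by
      intro j T B R mt a mb b f lx ly px py I h
      have e : go tab s (k + 1) j T B R mt a mb b f lx ly px py = @Bool.rec (fun _ => Bool)
        (step s (go tab s k) j T B R mt a mb b f lx ly px py) true (look tab j T B) := rfl
      rw [e, rec_yt] at h
      cases hl : look tab j T B with
      | true => exact ht _ (look_mem tab j T B hl) I.j1 I.jh I.T.symm I.B.symm
      | false => exact step_ok H (go_ok H ht k) j T B R mt a mb b f lx ly px py I (h hl)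

end Pool.Agent.CB53
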