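import Pool.Agent.CB53.Defs

/-!
# Soundness of the search
-/

set_option autoImplicit false

namespace Pool.Agent.CB53

/-! ## Unfolding the small pieces -/

theorem fc_eq {β : Type} (n : ℕ) (k : ℕ → β) : fc n k = k n := rfl

theorem rec_ff {x y : Bool} : @Bool.rec (fun _ => Bool) false y x = true ↔ x = true ∧ y = true := by
  cases x <;> simp

theorem rec_tt {x y : Bool} : @Bool.rec (fun _ => Bool) true y x = true ↔ (x = true → y = true) := by
  cases x <;> simp

theorem rec_yt {x y : Bool} : @Bool.rec (fun _ => Bool) y true x = true ↔ (x = false → y = true) := by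
  cases x <;> simp

theorem beq_false {a b : ℕ} (h : a ≠ b) : Nat.beq a b = false := by
  cases h1 : Nat.beq a b with
  | false => rfl
  | true => exact absurd (Nat.eq_of_beq_eq_true h1) h

theorem allB_iff {p : ℕ → Bool} : ∀ n : ℕ, allB n p = true ↔ ∀ x < n, p x = true
  | 0 => by simp [allB]
  | n + 1 => by
      have h : allB (n + 1) p = @Bool.rec (fun _ => Bool) false (allB n p) (p n) := rfl
      rw [h, rec_ff, allB_iff n]
      constructor
      · rintro ⟨h1, h2⟩ x hx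
        rcases Nat.lt_succ_iff_lt_or_eq.1 hx with h | h
        · exact h2 x h
        · rw [h]; exact h1
      · intro h
        exact ⟨h n (Nat.lt_succ_self n), fun x hx => h x (Nat.lt_succ_of_lt hx)⟩

theorem allL_iff {p : ℕ → Bool} : ∀ l : List ℕ, allL l p = true ↔ ∀ x ∈ l, p x = true
  | [] => by simp [allL]
  | a :: l => by
      have h : allL (a :: l) p = @Bool.rec (fun _ => Bool) false (allL l p) (p a) := rfl
      rw [h, rec_ff, allL_iff l]
      simp

theorem mem_iff {y : ℕ} : ∀ l : List ℕ, mem y l = true ↔ y ∈ l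
  | [] => by simp [mem]
  | a :: l => by
      have h : mem y (a :: l) = @Bool.rec (fun _ => Bool) (mem y l) true (Nat.beq a y) := rfl
      rw [h, rec_yt, mem_iff l, List.mem_cons]
      by_cases hay : y = a
      · subst hay
        simp
      · have h1 : Nat.beq a y = false := beq_false (fun h => hay h.symm)
        simp [h1, hay]

/-! ## Digits -/

/-- The decimal digit of `n` at place `i`. -/
def dg (n i : ℕ) : ℕ := n / 10 ^ i % 10

/-- The number of decimal digits. -/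
def ln (n : ℕ) : ℕ := (Nat.digits 10 n).length

theorem dg_lt (n i : ℕ) : dg n i < 10 := Nat.mod_lt _ (by norm_num)

theorem dg_eq_getD (n i : ℕ) : (Nat.digits 10 n).getD i 0 = dg n i := by
  rw [Nat.getD_digits _ _ (by norm_num)]
  rfl

theorem lt_pow_ln (n : ℕ) : n < 10 ^ ln n := Nat.lt_base_pow_length_digits (by norm_num)

theorem pow_ln_le {n : ℕ} (h : n ≠ 0) : 10 ^ (ln n - 1) ≤ n := by
  have h1 := Nat.base_pow_length_digits_le 10 n (by norm_num) h
  have h2 : 0 < ln n := by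
    rw [ln, List.length_pos_iff]
    exact Nat.digits_ne_nil_iff_ne_zero.2 h
  have h3 : 10 ^ ln n = 10 * 10 ^ (ln n - 1) := by
    rw [← pow_succ']
    congr 1
    omega
  have h4 : 10 ^ ln n ≤ 10 * n := h1
  omega

theorem div_step (n m : ℕ) : n / 10 ^ m = 10 * (n / 10 ^ (m + 1)) + dg n m := by
  rw [pow_succ, ← Nat.div_div_eq_div_mul, dg]
  exact (Nat.div_add_mod _ 10).symm

theorem mod_step (n j : ℕ) : n % 10 ^ (j + 1) = n % 10 ^ j + dg n j * 10 ^ j := by
  rw [Nat.mod_pow_succ, dg, mul_comm]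

/-- The digits of the cube, one at a time. -/
theorem dg_cube (n j : ℕ) (hj : 1 ≤ j) :
    dg (n ^ 3) j = ((n % 10 ^ j) ^ 3 / 10 ^ j % 10 +
      3 * ((n % 10 ^ j) * (n % 10 ^ j)) % 10 * dg n j) % 10 := by
  set B := n % 10 ^ j with hB
  set q := n / 10 ^ j with hq
  have h1 : n = B + 10 ^ j * q := (Nat.mod_add_div n _).symm
  have h2 : n ^ 3 = B ^ 3 + 10 ^ j * (3 * (B * B) * q + 10 ^ j * (3 * B * q ^ 2 + 10 ^ j * q ^ 3)) := by
    rw [h1]; ring
  have hpos : 0 < 10 ^ j := pow_pos (by norm_num) j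
  obtain ⟨i, rfl⟩ : ∃ i, j = i + 1 := ⟨j - 1, by omega⟩
  have h3 : n ^ 3 / 10 ^ (i + 1) = B ^ 3 / 10 ^ (i + 1) + (3 * (B * B) * q +
      10 ^ (i + 1) * (3 * B * q ^ 2 + 10 ^ (i + 1) * q ^ 3)) := by
    rw [h2, Nat.add_mul_div_left _ _ hpos]
  have h4 : 10 ^ (i + 1) * (3 * B * q ^ 2 + 10 ^ (i + 1) * q ^ 3) =
      10 * (10 ^ i * (3 * B * q ^ 2 + 10 ^ (i + 1) * q ^ 3)) := by
    rw [pow_succ]; ring
  rw [dg, h3, h4, dg, ← hq]
  conv_rhs => rw [Nat.add_mod, Nat.mod_mod, Nat.mul_mod, Nat.mod_mod, Nat.mod_mod,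
    ← Nat.mul_mod, ← Nat.add_mod]
  rw [← add_assoc, Nat.add_mul_mod_self_left]

/-- The interval test holds for the true digits. -/
theorem interval {n s : ℕ} (hs : ln (n ^ 3) + 2 = 3 * ln n + s) {j : ℕ} (h1 : 1 ≤ j)
    (h2 : j ≤ ln n) :
    (n / 10 ^ (ln n - j)) ^ 3 < (n ^ 3 / 10 ^ (ln (n ^ 3) - j) + 1) * 10 ^ (2 * j - 2 + s) ∧
    (n ^ 3 / 10 ^ (ln (n ^ 3) - j)) * 10 ^ (2 * j - 2 + s) < (n / 10 ^ (ln n - j) + 1) ^ 3 := by
  have hL : ln (n ^ 3) - j = 3 * (ln n - j) + (2 * j - 2 + s) := by omega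
  set e := ln n - j with he
  set w := 2 * j - 2 + s with hw
  rw [hL]
  set T := n / 10 ^ e with hT
  set R := n ^ 3 / 10 ^ (3 * e + w) with hR
  have hpe : 0 < 10 ^ e := pow_pos (by norm_num) e
  have hpw : 0 < 10 ^ (3 * e + w) := pow_pos (by norm_num) _
  have a1 : T * 10 ^ e ≤ n := Nat.div_mul_le_self n _
  have a2 : n < (T + 1) * 10 ^ e := by
    rw [hT, mul_comm]
    exact Nat.lt_mul_div_succ n hpe
  have b1 : R * 10 ^ (3 * e + w) ≤ n ^ 3 := Nat.div_mul_le_self _ _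
  have b2 : n ^ 3 < (R + 1) * 10 ^ (3 * e + w) := by
    rw [hR, mul_comm]
    exact Nat.lt_mul_div_succ _ hpw
  have c1 : T ^ 3 * 10 ^ (3 * e) ≤ n ^ 3 := by
    calc T ^ 3 * 10 ^ (3 * e) = (T * 10 ^ e) ^ 3 := by rw [mul_pow, ← pow_mul, mul_comm 3 e]
      _ ≤ n ^ 3 := Nat.pow_le_pow_left a1 3
  have c2 : n ^ 3 < (T + 1) ^ 3 * 10 ^ (3 * e) := by
    calc n ^ 3 < ((T + 1) * 10 ^ e) ^ 3 := Nat.pow_lt_pow_left a2 (by norm_num)
      _ = (T + 1) ^ 3 * 10 ^ (3 * e) := by rw [mul_pow, ← pow_mul, mul_comm 3 e]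
  have hp3 : 0 < 10 ^ (3 * e) := pow_pos (by norm_num) _
  constructor
  · have : T ^ 3 * 10 ^ (3 * e) < ((R + 1) * 10 ^ w) * 10 ^ (3 * e) := by
      calc T ^ 3 * 10 ^ (3 * e) ≤ n ^ 3 := c1
        _ < (R + 1) * 10 ^ (3 * e + w) := b2
        _ = ((R + 1) * 10 ^ w) * 10 ^ (3 * e) := by rw [pow_add]; ring
    exact lt_of_mul_lt_mul_right this (Nat.zero_le _)
  · have : (R * 10 ^ w) * 10 ^ (3 * e) < (T + 1) ^ 3 * 10 ^ (3 * e) := by
      calc (R * 10 ^ w) * 10 ^ (3 * e) = R * 10 ^ (3 * e + w) := by rw [pow_add]; ring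
        _ ≤ n ^ 3 := b1
        _ < (T + 1) ^ 3 * 10 ^ (3 * e) := c2
    exact lt_of_mul_lt_mul_right this (Nat.zero_le _)

/-! ## Reversal -/

theorem rv_step (k n r : ℕ) (hn : n ≠ 0) : rv (k + 1) n r = rv k (n / 10) (10 * r + n % 10) := by
  have h : rv (k + 1) n r = @Bool.rec (fun _ => ℕ) (rv k (n / 10) (10 * r + n % 10)) r
    (Nat.beq n 0) := rfl
  have h1 : Nat.beq n 0 = false := beq_false hn
  rw [h, h1]

theorem rv_zero (k r : ℕ) : rv k 0 r = r := by
  cases k <;> rfl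

theorem rv_eq : ∀ (k n r : ℕ), ln n ≤ k →
    rv k n r = r * 10 ^ ln n + Nat.ofDigits 10 (Nat.digits 10 n).reverse
  | k, n, r, h => by
      by_cases hn : n = 0
      · subst hn
        rw [rv_zero]
        simp [ln]
      · have hd : Nat.digits 10 n = (n % 10) :: Nat.digits 10 (n / 10) :=
          Nat.digits_def' (by norm_num) (Nat.pos_of_ne_zero hn)
        have hl : ln n = ln (n / 10) + 1 := by rw [ln, hd, List.length_cons, ln]
        obtain ⟨k', rfl⟩ : ∃ k', k = k' + 1 := ⟨k - 1, by omega⟩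
        rw [rv_step k' n r hn, rv_eq k' (n / 10) _ (by omega), hd, List.reverse_cons,
          Nat.ofDigits_append, hl, List.length_reverse]
        simp only [Nat.ofDigits_singleton]
        have : (Nat.digits 10 (n / 10)).length = ln (n / 10) := rfl
        rw [this]
        ring

theorem ln_le (n : ℕ) : ln n ≤ n := by
  by_cases h : n = 0
  · subst h; simp [ln]
  · have h1 := pow_ln_le h
    have h2 : ln n - 1 < 10 ^ (ln n - 1) := Nat.lt_pow_self (by norm_num)
    omega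

theorem rv_self_of_pal {n : ℕ} (h : (Nat.digits 10 n).reverse = Nat.digits 10 n) :
    rv n n 0 = n := by
  rw [rv_eq n n 0 (ln_le n), h, Nat.ofDigits_digits]
  ring

theorem pal_of_rv_self {n : ℕ} (h : rv n n 0 = n) :
    (Nat.digits 10 n).reverse = Nat.digits 10 n := by
  rw [rv_eq n n 0 (ln_le n), zero_mul, zero_add] at h
  have h2 : Nat.ofDigits 10 (Nat.digits 10 n).reverse = Nat.ofDigits 10 (Nat.digits 10 n) := by
    rw [h, Nat.ofDigits_digits]
  refine Nat.ofDigits_inj_of_len_eq (by norm_num : 1 < 10) (List.length_reverse) ?_ ?_ h2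
  · intro x hx
    exact Nat.digits_lt_base (by norm_num) (List.mem_reverse.1 hx)
  · intro x hx
    exact Nat.digits_lt_base (by norm_num) hx

end Pool.Agent.CB53
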